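import Mathlib
import Pool.Agent.X93.ST.Step
set_option autoImplicit false
set_option linter.unusedSectionVars false

/-! Elementary facts on the transform of a measure on a compact subset of Euclidean space. -/

namespace Pool.Agent.X331.SP

open MeasureTheory Set Metric Complex
open scoped ENNReal NNReal RealInnerProductSpace

abbrev E (n : ℕ) := EuclideanSpace ℝ (Fin n)

/-- the transform of the measure `g dν` -/
noncomputable def ft {n : ℕ} {𝕊 : Set (E n)} (ν : Measure 𝕊) (g : 𝕊 → ℂ) (ξ : E n) : ℂ :=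
  ∫ x, Complex.exp (-(⟪(x : E n), ξ⟫ : ℝ) * Complex.I) * g x ∂ν

variable {n : ℕ} {𝕊 : Set (E n)} {ν : Measure 𝕊} [IsFiniteMeasure ν]

theorem ker_cont : Continuous fun y : (𝕊) × E n =>
    Complex.exp (-(⟪(y.1 : E n), y.2⟫ : ℝ) * I) := by fun_prop

theorem ker_norm (x ξ : E n) :
    ‖Complex.exp (-(⟪x, ξ⟫ : ℝ) * I)‖ = 1 := by
  have h : (-(⟪x, ξ⟫ : ℝ) * I : ℂ) = ((-(⟪x, ξ⟫) : ℝ) : ℂ) * I := by
    push_cast; ring
  rw [h, Complex.norm_exp_ofReal_mul_I]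

theorem ker_int {g : 𝕊 → ℂ} (hg : Integrable g ν) (ξ : E n) :
    Integrable (fun x : 𝕊 =>
      Complex.exp (-(⟪(x : E n), ξ⟫ : ℝ) * I) * g x) ν := by
  refine hg.bdd_mul (c := 1) ?_ ?_
  · have : Continuous fun x : 𝕊 =>
      Complex.exp (-(⟪(x : E n), ξ⟫ : ℝ) * I) := by fun_prop
    exact this.aestronglyMeasurable
  · exact Filter.Eventually.of_forall fun x => (ker_norm _ _).le

theorem ft_norm_le (g : 𝕊 → ℂ) (ξ : E n) :
    ‖ft ν g ξ‖ ≤ ∫ x, ‖g x‖ ∂ν := by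
  unfold ft
  refine (norm_integral_le_integral_norm _).trans (le_of_eq ?_)
  refine integral_congr_ae (Filter.Eventually.of_forall fun x => ?_)
  simp only [norm_mul]
  rw [ker_norm, one_mul]

theorem ft_cont {g : 𝕊 → ℂ} (hg : Integrable g ν) :
    Continuous (ft ν g) := by
  unfold ft
  refine continuous_of_dominated (bound := fun x => ‖g x‖) ?_ ?_ hg.norm ?_
  · exact fun ξ => (ker_int hg ξ).aestronglyMeasurable
  · intro ξ
    refine Filter.Eventually.of_forall fun x => ?_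
    rw [norm_mul, ker_norm, one_mul]
  · refine Filter.Eventually.of_forall fun x => ?_
    fun_prop

theorem ft_add {f g : 𝕊 → ℂ} (hf : Integrable f ν)
    (hg : Integrable g ν) (ξ : E n) : ft ν (fun x => f x + g x) ξ = ft ν f ξ + ft ν g ξ := by
  unfold ft
  rw [← integral_add (ker_int hf ξ) (ker_int hg ξ)]
  congr 1
  ext x
  ring

theorem ft_sub {f g : 𝕊 → ℂ} (hf : Integrable f ν)
    (hg : Integrable g ν) (ξ : E n) : ft ν (fun x => f x - g x) ξ = ft ν f ξ - ft ν g ξ := by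
  unfold ft
  rw [← integral_sub (ker_int hf ξ) (ker_int hg ξ)]
  congr 1
  ext x
  ring

theorem ft_smul (g : 𝕊 → ℂ) (c : ℂ) (ξ : E n) :
    ft ν (fun x => c * g x) ξ = c * ft ν g ξ := by
  unfold ft
  rw [← integral_const_mul]
  congr 1
  ext x
  ring

theorem ft_sum {ι : Type} (s : Finset ι) {f : ι → 𝕊 → ℂ}
    (hf : ∀ i ∈ s, Integrable (f i) ν) (ξ : E n) :
    ft ν (fun x => ∑ i ∈ s, f i x) ξ = ∑ i ∈ s, ft ν (f i) ξ := by
  unfold ft
  rw [← integral_finsetSum s fun i hi => ker_int (hf i hi) ξ]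
  congr 1
  ext x
  rw [Finset.mul_sum]

theorem ft_lip {g : 𝕊 → ℂ} (hR : ∀ x : 𝕊, ‖(x : E n)‖ ≤ 3) (hg : Integrable g ν) (ξ ξ' : E n) :
    ‖ft ν g ξ - ft ν g ξ'‖ ≤ 3 * (∫ x, ‖g x‖ ∂ν) * ‖ξ - ξ'‖ := by
  unfold ft
  rw [← integral_sub (ker_int hg ξ) (ker_int hg ξ'),
    show 3 * (∫ x, ‖g x‖ ∂ν) * ‖ξ - ξ'‖ =
      ∫ x, (3 * ‖ξ - ξ'‖) * ‖g x‖ ∂ν by rw [integral_const_mul]; ring]
  refine norm_integral_le_of_norm_le (hg.norm.const_mul _)
    (Filter.Eventually.of_forall fun x => ?_)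
  rw [← sub_mul, norm_mul]
  refine mul_le_mul_of_nonneg_right ?_ (norm_nonneg _)
  have h1 : ∀ s t : ℝ, ‖Complex.exp (-(s : ℝ) * I) - Complex.exp (-(t : ℝ) * I)‖ ≤ |s - t| := by
    intro s t
    have e1 : Complex.exp (-(s : ℝ) * I) - Complex.exp (-(t : ℝ) * I) =
        Complex.exp (-(t : ℝ) * I) * (Complex.exp (I * ((t - s : ℝ) : ℂ)) - 1) := by
      rw [mul_sub, ← Complex.exp_add, mul_one]
      congr 2
      push_cast; ring
    rw [e1, norm_mul]
    have e2 : ‖Complex.exp (-(t : ℝ) * I)‖ = 1 := by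
      rw [show (-(t : ℝ) * I : ℂ) = ((-t : ℝ) : ℂ) * I by push_cast; ring,
        Complex.norm_exp_ofReal_mul_I]
    rw [e2, one_mul]
    have e3 := Real.norm_exp_I_mul_ofReal_sub_one_le (x := t - s)
    rw [Real.norm_eq_abs] at e3
    rw [abs_sub_comm]
    exact e3
  refine (h1 _ _).trans ?_
  rw [← inner_sub_right]
  refine (abs_real_inner_le_norm _ _).trans ?_
  exact mul_le_mul_of_nonneg_right (hR x) (norm_nonneg _)

theorem int_of_bdd {g : 𝕊 → ℂ} (hg : Measurable g) {M : ℝ}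
    (hM : ∀ x, ‖g x‖ ≤ M) : Integrable g ν :=
  Integrable.of_bound hg.aestronglyMeasurable M (Filter.Eventually.of_forall hM)

theorem int_norm_le {g : 𝕊 → ℂ} (hg : Measurable g) {M : ℝ}
    (hM : ∀ x, ‖g x‖ ≤ M) : ∫ x, ‖g x‖ ∂ν ≤ M * ν.real univ := by
  calc ∫ x, ‖g x‖ ∂ν ≤ ∫ _x, M ∂ν :=
        integral_mono (int_of_bdd hg hM).norm (integrable_const _) hM
    _ = _ := by rw [integral_const, smul_eq_mul, mul_comm]

end Pool.Agent.X331.SP
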