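import Mathlib
import Pool.Agent.X331.SP.Base
set_option autoImplicit false
set_option linter.unusedSectionVars false

/-! Admissible measures; trigonometric polynomials times a rough function of one coordinate. -/

namespace Pool.Agent.X331.SP

open MeasureTheory Set Metric Complex
open scoped ENNReal NNReal RealInnerProductSpace
open Pool.Agent.X93.ST (trig trig_cont trig_le zet zet_sum zet_abs zet_sq Fz Fz_meas Fz_le Fi Fi_meas RS)
open Pool.Agent.X93.ST.Slab (kap kap_meas)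

/-- admissible measures -/
structure Adm {n : ℕ} {𝕊 : Set (E n)} (ν : Measure 𝕊) (qc : ℝ) (e : E n) : Prop where
  two : 2 < qc
  four : qc < 4
  pos : 0 < ν.real univ
  norm : ∀ x : 𝕊, ‖(x : E n)‖ ≤ 3
  slabs : ∀ δ : ℝ≥0∞, δ ≠ 0 → ∃ N : ℕ, ∀ i : Fin (N + 1),
    ν {x | kap N (⟪e, (x : E n)⟫ : ℝ) = i} ≤ δ
  rid : ∀ q : ℝ, qc < q → ∃ C : ℝ, 0 < C ∧ ∀ F : ℝ → ℂ, Measurable F → ∀ K : ℝ,
    (∀ t, ‖F t‖ ≤ K) → MemLp (ft ν (fun x => F ⟪e, (x : E n)⟫)) (ENNReal.ofReal q) ∧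
      eLpNorm (ft ν (fun x => F ⟪e, (x : E n)⟫)) (ENNReal.ofReal q) ≤ ENNReal.ofReal (C * K)

variable {n : ℕ} {𝕊 : Set (E n)} {ν : Measure 𝕊} [IsFiniteMeasure ν]

/-- trigonometric polynomial times a ridge function -/
noncomputable def tr {n N : ℕ} {𝕊 : Set (E n)} (c : Fin N → ℂ) (η : Fin N → E n) (e : E n)
    (F : ℝ → ℂ) (x : 𝕊) : ℂ := trig c η x * F ⟪e, (x : E n)⟫

theorem ft_shift (g : 𝕊 → ℂ) (η ξ : E n) :
    ft ν (fun x => Complex.exp ((⟪η, (x : E n)⟫ : ℝ) * I) * g x) ξ = ft ν g (ξ - η) := by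
  unfold ft
  congr 1
  funext x
  rw [← mul_assoc, ← Complex.exp_add]
  congr 2
  rw [inner_sub_right, real_inner_comm η (x : E n)]
  push_cast
  ring

theorem ridge {qc : ℝ} {e : E n} (H : Adm ν qc e) (q : ℝ) (hq : qc < q) :
    ∃ C : ℝ, 0 < C ∧ ∀ (N : ℕ) (c : Fin N → ℂ) (η : Fin N → E n),
      ∀ F : ℝ → ℂ, Measurable F → ∀ K : ℝ, (∀ t, ‖F t‖ ≤ K) →
      MemLp (ft ν (tr c η e F)) (ENNReal.ofReal q) ∧
      eLpNorm (ft ν (tr c η e F)) (ENNReal.ofReal q) ≤ ENNReal.ofReal (C * (K * ∑ j, ‖c j‖)) := by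
  obtain ⟨C, hC, h⟩ := H.rid q hq
  refine ⟨C, hC, ?_⟩
  intro N c η F hF K hK
  have hK0 : 0 ≤ K := (norm_nonneg _).trans (hK 0)
  have hq2 : 2 < q := H.two.trans hq
  have hF1 : Measurable fun x : 𝕊 => F ⟪e, (x : E n)⟫ := hF.comp (by fun_prop)
  obtain ⟨hm, hb⟩ := h F hF K hK
  set u : E n → ℂ := ft ν (fun x => F ⟪e, (x : E n)⟫) with hu
  have e1 : ft ν (tr c η e F) = fun ξ => ∑ j, c j * u (ξ - η j) := by
    funext ξ
    have e2 : tr (𝕊 := 𝕊) c η e F = fun x : 𝕊 => ∑ j ∈ (Finset.univ : Finset (Fin N)),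
        (fun j x => c j * (Complex.exp ((⟪η j, (x : E n)⟫ : ℝ) * I) * F ⟪e, (x : E n)⟫)) j x := by
      funext x
      unfold tr trig
      rw [Finset.sum_mul]
      refine Finset.sum_congr rfl fun j _ => ?_
      ring
    rw [e2, ft_sum]
    · refine Finset.sum_congr rfl fun j _ => ?_
      rw [ft_smul, ft_shift]
    · intro j _
      refine Integrable.const_mul ?_ _
      refine int_of_bdd (M := K) ?_ fun x => ?_
      · have h3 : Measurable fun x : 𝕊 => Complex.exp ((⟪η j, (x : E n)⟫ : ℝ) * I) := by fun_prop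
        exact h3.mul hF1
      · rw [norm_mul, Complex.norm_exp_ofReal_mul_I, one_mul]
        exact hK _
  have hmp : ∀ j, MeasurePreserving (fun ξ : E n => ξ - η j) volume volume := fun j =>
    measurePreserving_sub_right volume (η j)
  have hmj : ∀ j, MemLp (fun ξ => c j * u (ξ - η j)) (ENNReal.ofReal q) := fun j =>
    (hm.comp_measurePreserving (hmp j)).const_mul (c j)
  rw [e1]
  refine ⟨memLp_finsetSum _ fun j _ => hmj j, ?_⟩
  have hq1 : 1 ≤ ENNReal.ofReal q := by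
    rw [← ENNReal.ofReal_one]; exact ENNReal.ofReal_le_ofReal (by linarith)
  have e3 : (fun ξ => ∑ j, c j * u (ξ - η j)) = ∑ j, fun ξ => c j * u (ξ - η j) := by
    funext ξ; rw [Finset.sum_apply]
  rw [e3]
  refine (eLpNorm_sum_le (fun j _ => (hmj j).1) hq1).trans ?_
  have e4 : ∀ j, eLpNorm (fun ξ => c j * u (ξ - η j)) (ENNReal.ofReal q) volume ≤
      ENNReal.ofReal (‖c j‖ * (C * K)) := by
    intro j
    have e5 : eLpNorm (fun ξ => c j * u (ξ - η j)) (ENNReal.ofReal q) volume =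
        ‖c j‖ₑ * eLpNorm (fun ξ => u (ξ - η j)) (ENNReal.ofReal q) volume :=
      eLpNorm_const_smul (c j) _ _ _
    have e6 : eLpNorm (fun ξ => u (ξ - η j)) (ENNReal.ofReal q) volume =
        eLpNorm u (ENNReal.ofReal q) volume :=
      eLpNorm_comp_measurePreserving hm.1 (hmp j)
    rw [e5, e6, ENNReal.ofReal_mul (norm_nonneg _), ofReal_norm]
    gcongr
  refine (Finset.sum_le_sum fun j _ => e4 j).trans ?_
  rw [← ENNReal.ofReal_sum_of_nonneg fun j _ => by positivity, ← Finset.sum_mul]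
  apply ENNReal.ofReal_le_ofReal
  refine le_of_eq ?_
  ring

theorem tr_meas {L : ℕ} (c : Fin L → ℂ) (η : Fin L → E n) (e : E n) {F : ℝ → ℂ}
    (hF : Measurable F) : Measurable (tr (𝕊 := 𝕊) c η e F) := by
  unfold tr
  have h1 : Measurable fun x : 𝕊 => trig c η x :=
    ((trig_cont c η).comp continuous_subtype_val).measurable
  have h2 : Measurable fun x : 𝕊 => (⟪e, (x : E n)⟫ : ℝ) := by fun_prop
  exact h1.mul (hF.comp h2)

theorem tr_le {L : ℕ} (c : Fin L → ℂ) (η : Fin L → E n) (e : E n) {F : ℝ → ℂ} {K : ℝ}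
    (hK : ∀ t, ‖F t‖ ≤ K) (x : 𝕊) : ‖tr c η e F x‖ ≤ (∑ j, ‖c j‖) * K := by
  unfold tr
  rw [norm_mul]
  exact mul_le_mul (trig_le c η _) (hK _) (norm_nonneg _) (Finset.sum_nonneg fun _ _ =>
    norm_nonneg _)

theorem ft_Fz {L : ℕ} (c : Fin L → ℂ) (η : Fin L → E n) (e : E n) (m N : ℕ)
    (z : Fin (N + 1) → Fin m) (ξ : E n) :
    ft ν (tr c η e (Fz m N z)) ξ = RS (zet m) (fun i => ft ν (tr c η e (Fi N i)) ξ) z := by
  unfold RS
  have h1 : tr (𝕊 := 𝕊) c η e (Fz m N z) = fun x => ∑ i ∈ (Finset.univ : Finset (Fin (N + 1))),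
      (zet m (z i) : ℂ) * tr c η e (Fi N i) x := by
    funext x
    unfold tr Fz Fi
    rw [Finset.sum_eq_single (kap N ⟪e, (x : E n)⟫)]
    · simp; ring
    · intro i _ hi
      rw [if_neg (Ne.symm hi)]; simp
    · simp
  rw [h1, ft_sum]
  · refine Finset.sum_congr rfl fun i _ => ?_
    rw [ft_smul]
  · intro i _
    refine Integrable.const_mul ?_ _
    refine int_of_bdd (tr_meas c η e (Fi_meas N i)) (M := (∑ j, ‖c j‖) * 1) fun x =>
      tr_le c η e (fun t => ?_) x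
    unfold Fi
    split_ifs <;> simp

theorem ft_Fi {L : ℕ} (c : Fin L → ℂ) (η : Fin L → E n) (e : E n) (N : ℕ)
    (i : Fin (N + 1)) (ξ : E n) :
    ‖ft ν (tr c η e (Fi N i)) ξ‖ ≤ (∑ j, ‖c j‖) *
      ν.real {x | kap N (⟪e, (x : E n)⟫ : ℝ) = i} := by
  refine (ft_norm_le _ _).trans ?_
  have hms : MeasurableSet {x : 𝕊 | kap N (⟪e, (x : E n)⟫ : ℝ) = i} := by
    have h2 : Measurable fun x : 𝕊 => (⟪e, (x : E n)⟫ : ℝ) := by fun_prop
    exact ((kap_meas N).comp h2) (measurableSet_singleton i)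
  have h1 : ∀ x : 𝕊, ‖tr c η e (Fi N i) x‖ ≤
      ({x : 𝕊 | kap N (⟪e, (x : E n)⟫ : ℝ) = i}).indicator
        (fun _ => ∑ j, ‖c j‖) x := by
    intro x
    unfold tr Fi
    rw [Set.indicator_apply]
    simp only [Set.mem_ofPred_eq]
    by_cases hx : kap N (⟪e, (x : E n)⟫ : ℝ) = i
    · rw [if_pos hx, if_pos hx, mul_one]
      exact trig_le c η _
    · rw [if_neg hx, if_neg hx, mul_zero, norm_zero]
  calc ∫ x, ‖tr c η e (Fi N i) x‖ ∂ν
      ≤ ∫ x, ({x : 𝕊 | kap N (⟪e, (x : E n)⟫ : ℝ) = i}).indicator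
        (fun _ => ∑ j, ‖c j‖) x ∂ν := by
        refine integral_mono_of_nonneg (Filter.Eventually.of_forall fun x => norm_nonneg _) ?_
          (Filter.Eventually.of_forall h1)
        exact (integrable_const _).indicator hms
    _ = _ := by
        rw [integral_indicator hms, setIntegral_const, smul_eq_mul, mul_comm]

open Algebra

variable [CompactSpace 𝕊]

/-- exponentials -/
noncomputable def ex (𝕊 : Set (E n)) [CompactSpace 𝕊] (η : E n) : C(𝕊, ℂ) :=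
  ⟨fun x => Complex.exp ((⟪η, (x : E n)⟫ : ℝ) * I), by fun_prop⟩

theorem ex_apply (η : E n) (x : 𝕊) :
    ex 𝕊 η x = Complex.exp ((⟪η, (x : E n)⟫ : ℝ) * I) := rfl

/-- star algebra of trigonometric polynomials -/
noncomputable def TA (𝕊 : Set (E n)) [CompactSpace 𝕊] : StarSubalgebra ℂ C(𝕊, ℂ) where
  toSubalgebra := Algebra.adjoin ℂ (range (ex 𝕊))
  star_mem' := by
    change Algebra.adjoin ℂ (range (ex 𝕊)) ≤ star (Algebra.adjoin ℂ (range (ex 𝕊)))
    refine adjoin_le ?_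
    rintro - ⟨η, rfl⟩
    refine subset_adjoin ⟨-η, ?_⟩
    ext x
    rw [ContinuousMap.star_apply, ex_apply, ex_apply, ← starRingEnd_apply, ← Complex.exp_conj,
      map_mul, Complex.conj_ofReal, Complex.conj_I, inner_neg_left]
    congr 1
    push_cast; ring

theorem TA_coe : Subalgebra.toSubmodule (TA 𝕊).toSubalgebra =
    Submodule.span ℂ (range (ex 𝕊)) := by
  apply adjoin_eq_span_of_subset
  refine Subset.trans ?_ Submodule.subset_span
  intro x hx
  refine Submonoid.closure_induction (fun _ => id) ⟨0, ?_⟩ ?_ hx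
  · ext1 z; rw [ex_apply]; simp
  · rintro - - - - ⟨m, rfl⟩ ⟨k, rfl⟩
    refine ⟨m + k, ?_⟩
    ext1 z
    rw [ContinuousMap.mul_apply, ex_apply, ex_apply, ex_apply, ← Complex.exp_add, inner_add_left]
    congr 1
    push_cast; ring

theorem TA_sep : (TA 𝕊).SeparatesPoints := by
  intro x y hxy
  have hxy' : (x : E n) - y ≠ 0 := by
    rw [sub_ne_zero]; exact fun h => hxy (Subtype.ext h)
  have hn : ‖(x : E n) - y‖ ≠ 0 := norm_ne_zero_iff.2 hxy'
  refine ⟨_, ⟨ex 𝕊 ((‖(x : E n) - y‖ ^ 2)⁻¹ • ((x : E n) - y)), subset_adjoin ⟨_, rfl⟩, rfl⟩, ?_⟩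
  dsimp only
  rw [ex_apply, ex_apply]
  intro h
  set η := (‖(x : E n) - y‖ ^ 2)⁻¹ • ((x : E n) - y) with hη
  have h1 : (⟪η, (x : E n)⟫ : ℝ) = ⟪η, (y : E n)⟫ + 1 := by
    have : (⟪η, (x : E n) - y⟫ : ℝ) = 1 := by
      rw [hη, real_inner_smul_left, real_inner_self_eq_norm_sq]
      field_simp
    rw [inner_sub_right] at this
    linarith
  rw [h1] at h
  have h2 : ((⟪η, (y : E n)⟫ + 1 : ℝ) : ℂ) * I = ((⟪η, (y : E n)⟫ : ℝ) : ℂ) * I + I := by
    push_cast; ring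
  rw [h2, Complex.exp_add] at h
  have h3 : Complex.exp I = 1 := by
    have h4 := Complex.exp_ne_zero (((⟪η, (y : E n)⟫ : ℝ) : ℂ) * I)
    have h5 : Complex.exp (((⟪η, (y : E n)⟫ : ℝ) : ℂ) * I) * Complex.exp I =
        Complex.exp (((⟪η, (y : E n)⟫ : ℝ) : ℂ) * I) * 1 := by rw [mul_one]; exact h
    exact mul_left_cancel₀ h4 h5
  rw [Complex.exp_eq_one_iff] at h3
  obtain ⟨k, hk⟩ := h3
  have h6 := congrArg Complex.im hk
  simp at h6
  have h7 : (1 : ℝ) = (k : ℝ) * (2 * Real.pi) := h6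
  rcases le_or_gt k 0 with hk0 | hk0
  · have : (k : ℝ) ≤ 0 := by exact_mod_cast hk0
    nlinarith [Real.pi_pos]
  · have : (1 : ℝ) ≤ k := by exact_mod_cast hk0
    nlinarith [Real.pi_gt_three]

theorem trig_dense (ψ : C(𝕊, ℂ)) (δ : ℝ) (hδ : 0 < δ) :
    ∃ (L : ℕ) (c : Fin L → ℂ) (η : Fin L → E n), ∀ x : 𝕊,
      ‖ψ x - trig c η x‖ ≤ δ := by
  have h1 : (TA 𝕊).topologicalClosure = ⊤ :=
    ContinuousMap.starSubalgebra_topologicalClosure_eq_top_of_separatesPoints (TA 𝕊) TA_sep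
  have h2 : (Submodule.span ℂ (range (ex 𝕊))).topologicalClosure = ⊤ := by
    rw [← TA_coe]
    exact congr_arg (Subalgebra.toSubmodule <| StarSubalgebra.toSubalgebra ·) h1
  have h3 : ψ ∈ closure (Submodule.span ℂ (range (ex 𝕊)) :
      Set C(𝕊, ℂ)) := by
    rw [← Submodule.topologicalClosure_coe, h2]; trivial
  rw [Metric.mem_closure_iff] at h3
  obtain ⟨t, ht, hd⟩ := h3 δ hδ
  obtain ⟨L, c, η, hc⟩ : ∃ (L : ℕ) (c : Fin L → ℂ) (η : Fin L → E n),
      ∀ x : 𝕊, t x = trig c η x := by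
    have ht' : t ∈ Submodule.span ℂ (range (ex 𝕊)) := ht
    rw [Finsupp.mem_span_range_iff_exists_finsupp] at ht'
    obtain ⟨c, hc⟩ := ht'
    refine ⟨c.support.card, fun i => c (c.support.equivFin.symm i),
      fun i => c.support.equivFin.symm i, fun x => ?_⟩
    rw [← hc]
    have e1 : trig (fun i => c (c.support.equivFin.symm i)) (fun i => c.support.equivFin.symm i)
        (x : E n) = ∑ j : c.support, c j * Complex.exp ((⟪(j : E n), (x : E n)⟫ : ℝ) * I) :=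
      c.support.equivFin.symm.sum_comp
        (fun j : c.support => c j * Complex.exp ((⟪(j : E n), (x : E n)⟫ : ℝ) * I))
    rw [e1, Finset.sum_coe_sort c.support (fun j : E n => c j *
        Complex.exp ((⟪(j : E n), (x : E n)⟫ : ℝ) * I))]
    unfold Finsupp.sum
    rw [ContinuousMap.sum_apply]
    refine Finset.sum_congr rfl fun j _ => ?_
    simp only
    rw [ContinuousMap.smul_apply, ex_apply, smul_eq_mul]
  refine ⟨L, c, η, fun x => ?_⟩
  rw [← hc x, ← dist_eq_norm]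
  exact (ContinuousMap.dist_apply_le_dist x).trans hd.le

theorem approx (ν : Measure 𝕊) [IsFiniteMeasure ν] (φ : 𝕊 → ℂ) (hφ : Measurable φ) (M : ℝ) (hM : 0 < M)
    (hb : ∀ x, ‖φ x‖ ≤ M) (ρ : ℝ) (hρ : 0 < ρ) (ε : ℝ) (hε : 0 < ε) :
    ∃ (L : ℕ) (c : Fin L → ℂ) (η : Fin L → E n),
      (∀ x : 𝕊, ‖trig c η x‖ ≤ 2 * M) ∧
      ν {x | ρ < ‖φ x - trig c η x‖} ≤ ENNReal.ofReal ε := by
  have hint := int_of_bdd (ν := ν) hφ hb
  obtain ⟨ψ, hψ, hψi⟩ := hint.exists_boundedContinuous_integral_sub_le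
    (show 0 < ε * (ρ / 4) by positivity)
  set ψ' : C(𝕊, ℂ) := ⟨fun x => ((M / max M ‖ψ x‖ : ℝ) : ℂ) * ψ x, by
    have h1 : Continuous fun x => M / max M ‖ψ x‖ :=
      continuous_const.div (by fun_prop) fun x => (lt_of_lt_of_le hM (le_max_left _ _)).ne'
    exact (Complex.continuous_ofReal.comp h1).mul ψ.continuous⟩ with hψ'
  have hap : ∀ x, ψ' x = ((M / max M ‖ψ x‖ : ℝ) : ℂ) * ψ x := fun x => rfl
  have hb' : ∀ x, ‖ψ' x‖ ≤ M := by
    intro x
    have hm : 0 < max M ‖ψ x‖ := lt_of_lt_of_le hM (le_max_left _ _)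
    rw [hap, norm_mul, Complex.norm_real, Real.norm_eq_abs, abs_of_nonneg (by positivity),
      div_mul_eq_mul_div, div_le_iff₀ hm]
    exact mul_le_mul_of_nonneg_left (le_max_right _ _) hM.le
  have hdiff : ∀ x, ‖φ x - ψ' x‖ ≤ 2 * ‖φ x - ψ x‖ := by
    intro x
    have hm : 0 < max M ‖ψ x‖ := lt_of_lt_of_le hM (le_max_left _ _)
    have h1 : ‖ψ x - ψ' x‖ ≤ ‖φ x - ψ x‖ := by
      have h2 : ψ x - ψ' x = ((1 - M / max M ‖ψ x‖ : ℝ) : ℂ) * ψ x := by
        rw [hap]; push_cast; ring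
      rw [h2, norm_mul, Complex.norm_real, Real.norm_eq_abs]
      rcases le_total ‖ψ x‖ M with h | h
      · rw [max_eq_left h, div_self hM.ne', sub_self, abs_zero, zero_mul]
        exact norm_nonneg _
      · rw [max_eq_right h]
        have hp : 0 < ‖ψ x‖ := lt_of_lt_of_le hM h
        rw [abs_of_nonneg (by rw [sub_nonneg, div_le_one hp]; exact h), sub_mul, one_mul,
          div_mul_cancel₀ _ hp.ne']
        have := norm_sub_norm_le (ψ x) (φ x)
        rw [norm_sub_rev] at this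
        linarith [hb x]
    calc ‖φ x - ψ' x‖ = ‖(φ x - ψ x) + (ψ x - ψ' x)‖ := by congr 1; ring
      _ ≤ ‖φ x - ψ x‖ + ‖ψ x - ψ' x‖ := norm_add_le _ _
      _ ≤ _ := by linarith
  obtain ⟨L, c, η, ht⟩ := trig_dense ψ' (min M (ρ / 2)) (lt_min hM (by positivity))
  refine ⟨L, c, η, fun x => ?_, ?_⟩
  · have h1 := (ht x).trans (min_le_left _ _)
    have h2 := norm_sub_norm_le (trig c η x) (ψ' x)
    rw [norm_sub_rev] at h2
    linarith [hb' x]
  · have hsub : {x | ρ < ‖φ x - trig c η x‖} ⊆ {x | ρ / 4 ≤ ‖φ x - ψ x‖} := by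
      intro x hx
      rw [mem_ofPred_eq] at hx ⊢
      have h1 := (ht x).trans (min_le_right _ _)
      have h2 : ‖φ x - trig c η x‖ ≤ ‖φ x - ψ' x‖ + ‖ψ' x - trig c η x‖ := by
        calc _ = ‖(φ x - ψ' x) + (ψ' x - trig c η x)‖ := by congr 1; ring
          _ ≤ _ := norm_add_le _ _
      linarith [hdiff x]
    refine (measure_mono hsub).trans ?_
    have h3 := mul_meas_ge_le_integral_of_nonneg
      (μ := ν) (f := fun x => ‖φ x - ψ x‖)
      (Filter.Eventually.of_forall fun x => norm_nonneg _) ((hint.sub hψi).norm) (ρ / 4)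
    rw [← ENNReal.ofReal_toReal (measure_ne_top ν {x | ρ / 4 ≤ ‖φ x - ψ x‖})]
    apply ENNReal.ofReal_le_ofReal
    have h4 : ρ / 4 * ν.real {x | ρ / 4 ≤ ‖φ x - ψ x‖} ≤ ρ / 4 * ε := by
      calc _ ≤ _ := h3
        _ ≤ _ := hψ
        _ = _ := by ring
    exact le_of_mul_le_mul_left h4 (by positivity)



end Pool.Agent.X331.SP
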