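import Mathlib
import Pool.Agent.X331.SP.Adm
import Pool.Agent.X331.SI.Pick
set_option autoImplicit false
set_option linter.unusedSectionVars false

/-! The averaged estimate and the increments. -/

namespace Pool.Agent.X331.SP

open MeasureTheory Set Metric Complex
open scoped ENNReal NNReal RealInnerProductSpace
open Pool.Agent.X93.ST (trig trig_cont trig_le zet zet_sum zet_abs zet_sq Fz Fz_meas Fz_le Fi Fi_meas RS A2 A2_nonneg upper lower enorm_rpow)
open Pool.Agent.X93.ST.Slab (kap kap_meas)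
open Pool.Agent.X331.SI (dz dz_nonneg dz_le dz_lip dz_add_int dz_zero_iff dz_cont dz_meas cw cw_mem cw_sum cw_dev cw_hit cw_meas re_trig sum_one zet_swap)

variable {n : ℕ} {𝕊 : Set (E n)} {ν : Measure 𝕊} [IsFiniteMeasure ν]

theorem average2 {qc : ℝ} {e : E n} (H : Adm ν qc e) (p : ℝ) (hp1 : qc < p) (hp2 : p ≤ 4)
    (B : ℝ) (hB0 : 0 ≤ B) (m : ℕ) (hm : 2 ≤ m) (τ : ℝ) (hτ : 0 < τ) :
    ∃ N : ℕ, ∀ (L : ℕ) (c : Fin L → ℂ) (η : Fin L → E n), ∑ j, ‖c j‖ ≤ B →
      ∑ z : Fin (N + 1) → Fin m, ∫⁻ ξ, ‖ft ν (tr c η e (Fz m N z)) ξ‖ₑ ^ p ≤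
        ENNReal.ofReal ((m : ℝ) ^ (N + 1) * τ) := by
  have hpc : 2 < qc := H.two
  have hs := H.slabs
  set q : ℝ := (qc + p) / 2 with hq
  have hq1 : qc < q := by linarith
  have hq2 : q < p := by linarith
  have hq0 : 2 < q := by linarith
  obtain ⟨C, hC, hr⟩ := ridge H q hq1
  have : Nonempty (Fin m) := ⟨⟨0, by omega⟩⟩
  have hmR : (2 : ℝ) ≤ m := by exact_mod_cast hm
  set D : ℝ := C * (m * B) with hD
  have hD0 : 0 ≤ D := by positivity
  set S : ℝ := ν.real univ with hS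
  have hS0 : 0 ≤ S := measureReal_nonneg
  set κ1 : ℝ := (4 * (m : ℝ) ^ 5) ^ (p / 4) with hκ1
  have hκ10 : 0 ≤ κ1 := by positivity
  -- choice of the size of the slabs
  obtain ⟨δ, hδ, hδ2⟩ : ∃ δ : ℝ, 0 < δ ∧
      κ1 * (B ^ 2 * (δ * S)) ^ ((p - q) / 2) * D ^ q ≤ τ := by
    have hcont : ContinuousAt (fun δ : ℝ => κ1 * (B ^ 2 * (δ * S)) ^ ((p - q) / 2) * D ^ q) 0 := by
      refine (continuousAt_const.mul (ContinuousAt.rpow_const (by fun_prop) ?_)).mul
        continuousAt_const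
      right; linarith
    have h0 : (fun δ : ℝ => κ1 * (B ^ 2 * (δ * S)) ^ ((p - q) / 2) * D ^ q) 0 < τ := by
      simp only [zero_mul, mul_zero]
      rw [Real.zero_rpow (by linarith), mul_zero, zero_mul]
      exact hτ
    have hev := hcont.eventually_lt continuousAt_const h0
    have hev2 : ∀ᶠ δ : ℝ in nhdsWithin 0 (Ioi 0),
        κ1 * (B ^ 2 * (δ * S)) ^ ((p - q) / 2) * D ^ q < τ := hev.filter_mono nhdsWithin_le_nhds
    obtain ⟨δ, h1, h2⟩ := (hev2.and self_mem_nhdsWithin).exists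
    exact ⟨δ, h2, h1.le⟩
  obtain ⟨N, hN⟩ := hs (ENNReal.ofReal δ) (by simpa using hδ)
  refine ⟨N, ?_⟩
  intro L c η hcB
  have hB' : 0 ≤ ∑ j, ‖c j‖ := Finset.sum_nonneg fun _ _ => norm_nonneg _
  have hNr : ∀ i : Fin (N + 1), ν.real {x | kap N (⟪e, (x : E n)⟫ : ℝ) = i} ≤ δ := by
    intro i
    exact ENNReal.toReal_le_of_le_ofReal hδ.le (hN i)
  have hms : ∀ i : Fin (N + 1),
      MeasurableSet {x : 𝕊 | kap N (⟪e, (x : E n)⟫ : ℝ) = i} := by
    intro i
    have h2 : Measurable fun x : 𝕊 => (⟪e, (x : E n)⟫ : ℝ) := by fun_prop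
    exact ((kap_meas N).comp h2) (measurableSet_singleton i)
  have hsumS : ∑ i : Fin (N + 1), ν.real {x | kap N (⟪e, (x : E n)⟫ : ℝ) = i} = S := by
    rw [hS, ← measureReal_biUnion_finset]
    · congr 1
      ext x
      simp
    · intro i _ j _ hij
      refine Set.disjoint_left.2 fun x h1 h2 => hij ?_
      rw [mem_ofPred_eq] at h1 h2
      rw [← h1, ← h2]
    · exact fun i _ => hms i
  set a : Fin (N + 1) → E n → ℂ := fun i ξ => ft ν (tr c η e (Fi N i)) ξ with ha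
  have hA : ∀ ξ, A2 (fun i => a i ξ) ≤ B ^ 2 * (δ * S) := by
    intro ξ
    unfold A2
    calc ∑ i, ‖a i ξ‖ ^ 2 ≤ ∑ i : Fin (N + 1), B ^ 2 *
          (δ * ν.real {x | kap N (⟪e, (x : E n)⟫ : ℝ) = i}) := by
          refine Finset.sum_le_sum fun i _ => ?_
          have h1 := (ft_Fi (ν := ν) c η e N i ξ).trans (mul_le_mul_of_nonneg_right hcB measureReal_nonneg)
          calc ‖a i ξ‖ ^ 2 ≤ (B * ν.real {x | kap N (⟪e, (x : E n)⟫ : ℝ) = i}) ^ 2 :=
                pow_le_pow_left₀ (norm_nonneg _) h1 2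
            _ = B ^ 2 * (ν.real {x | kap N (⟪e, (x : E n)⟫ : ℝ) = i} *
                ν.real {x | kap N (⟪e, (x : E n)⟫ : ℝ) = i}) := by ring
            _ ≤ _ := by
                refine mul_le_mul_of_nonneg_left ?_ (by positivity)
                exact mul_le_mul_of_nonneg_right (hNr i) measureReal_nonneg
      _ = _ := by rw [← Finset.mul_sum, ← Finset.mul_sum, hsumS]
  have hcard : (Fintype.card (Fin m) : ℝ) = m := by simp
  have hFc : ∀ z : Fin (N + 1) → Fin m, Continuous (ft ν (tr c η e (Fz m N z))) := fun z =>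
    ft_cont (int_of_bdd (tr_meas c η e (Fz_meas m N z)) (tr_le c η e (Fz_le m N hm z)))
  have hFm : ∀ (r : ℝ) (z : Fin (N + 1) → Fin m),
      Measurable fun ξ => ‖ft ν (tr c η e (Fz m N z)) ξ‖ₑ ^ r := fun r z =>
    (hFc z).measurable.enorm.pow_const r
  -- pointwise
  have hpt : ∀ ξ, ∑ z : Fin (N + 1) → Fin m, ‖ft ν (tr c η e (Fz m N z)) ξ‖ₑ ^ p ≤
      ENNReal.ofReal (κ1 * (B ^ 2 * (δ * S)) ^ ((p - q) / 2)) *
        ∑ z : Fin (N + 1) → Fin m, ‖ft ν (tr c η e (Fz m N z)) ξ‖ₑ ^ q := by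
    intro ξ
    simp_rw [enorm_rpow _ (show 0 ≤ p by linarith), enorm_rpow _ (show 0 ≤ q by linarith)]
    rw [← ENNReal.ofReal_sum_of_nonneg fun _ _ => by positivity,
      ← ENNReal.ofReal_sum_of_nonneg fun _ _ => by positivity,
      ← ENNReal.ofReal_mul (by positivity)]
    apply ENNReal.ofReal_le_ofReal
    simp_rw [ft_Fz]
    have h1 := upper (zet m) (zet_sum m (by omega)) m (by linarith) (zet_abs m hm)
      (fun i => a i ξ) p (by linarith) hp2
    have h2 := lower (zet m) (zet_sum m (by omega)) (zet_sq m hm) (fun i => a i ξ) q hq0.le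
    have hA0 := A2_nonneg (fun i => a i ξ)
    refine h1.trans ?_
    have h3 : A2 (fun i => a i ξ) ^ (p / 2) ≤ (B ^ 2 * (δ * S)) ^ ((p - q) / 2) *
        A2 (fun i => a i ξ) ^ (q / 2) := by
      calc A2 (fun i => a i ξ) ^ (p / 2) = A2 (fun i => a i ξ) ^ ((p - q) / 2) *
            A2 (fun i => a i ξ) ^ (q / 2) := by
            rw [← Real.rpow_add_of_nonneg hA0 (by linarith) (by linarith)]
            congr 1; ring
        _ ≤ _ := by
            refine mul_le_mul_of_nonneg_right ?_ (by positivity)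
            exact Real.rpow_le_rpow hA0 (hA ξ) (by linarith)
    rw [hcard] at h1 h2 ⊢
    calc (m : ℝ) ^ (N + 1) * (κ1 * A2 (fun i => a i ξ) ^ (p / 2))
        ≤ (m : ℝ) ^ (N + 1) * (κ1 * ((B ^ 2 * (δ * S)) ^ ((p - q) / 2) *
        A2 (fun i => a i ξ) ^ (q / 2))) := by gcongr
      _ = κ1 * (B ^ 2 * (δ * S)) ^ ((p - q) / 2) *
          ((m : ℝ) ^ (N + 1) * A2 (fun i => a i ξ) ^ (q / 2)) := by ring
      _ ≤ _ := by
          refine mul_le_mul_of_nonneg_left h2 (by positivity)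
  have hLq : ∀ z : Fin (N + 1) → Fin m, ∫⁻ ξ, ‖ft ν (tr c η e (Fz m N z)) ξ‖ₑ ^ q ≤
      ENNReal.ofReal (D ^ q) := by
    intro z
    have h1 := ((hr L c η (Fz m N z) (Fz_meas m N z) m (Fz_le m N hm z)).2).trans
      (ENNReal.ofReal_le_ofReal (show C * (m * ∑ j, ‖c j‖) ≤ D by rw [hD]; gcongr))
    rw [eLpNorm_eq_lintegral_rpow_enorm_toReal (by simp; linarith) (by simp),
      ENNReal.toReal_ofReal (by linarith)] at h1
    have h2 := ENNReal.rpow_le_rpow h1 (show 0 ≤ q by linarith)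
    rw [← ENNReal.rpow_mul, one_div, inv_mul_cancel₀ (by linarith), ENNReal.rpow_one,
      ENNReal.ofReal_rpow_of_nonneg hD0 (by linarith)] at h2
    exact h2
  calc ∑ z : Fin (N + 1) → Fin m, ∫⁻ ξ, ‖ft ν (tr c η e (Fz m N z)) ξ‖ₑ ^ p
      = ∫⁻ ξ, ∑ z : Fin (N + 1) → Fin m, ‖ft ν (tr c η e (Fz m N z)) ξ‖ₑ ^ p := by
        rw [lintegral_finsetSum _ fun z _ => hFm p z]
    _ ≤ ∫⁻ ξ, ENNReal.ofReal (κ1 * (B ^ 2 * (δ * S)) ^ ((p - q) / 2)) *
        ∑ z : Fin (N + 1) → Fin m, ‖ft ν (tr c η e (Fz m N z)) ξ‖ₑ ^ q := lintegral_mono hpt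
    _ = ENNReal.ofReal (κ1 * (B ^ 2 * (δ * S)) ^ ((p - q) / 2)) *
        ∑ z : Fin (N + 1) → Fin m, ∫⁻ ξ, ‖ft ν (tr c η e (Fz m N z)) ξ‖ₑ ^ q := by
        rw [lintegral_const_mul _ (Finset.measurable_fun_sum _ fun z _ => hFm q z),
          lintegral_finsetSum _ fun z _ => hFm q z]
    _ ≤ ENNReal.ofReal (κ1 * (B ^ 2 * (δ * S)) ^ ((p - q) / 2)) *
        ∑ z : Fin (N + 1) → Fin m, ENNReal.ofReal (D ^ q) := by
        gcongr with z _
        exact hLq z
    _ = ENNReal.ofReal (κ1 * (B ^ 2 * (δ * S)) ^ ((p - q) / 2) * ((m : ℝ) ^ (N + 1) * D ^ q)) := by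
        rw [Finset.sum_const, Finset.card_univ, nsmul_eq_mul,
          ENNReal.ofReal_mul (show 0 ≤ κ1 * (B ^ 2 * (δ * S)) ^ ((p - q) / 2) by positivity),
          ENNReal.ofReal_mul (show 0 ≤ (m : ℝ) ^ (N + 1) by positivity)]
        congr 2
        rw [Fintype.card_pi]
        simp only [Finset.prod_const, Finset.card_univ, Fintype.card_fin]
        rw [← Nat.cast_pow, ENNReal.ofReal_natCast]
    _ ≤ _ := by
        apply ENNReal.ofReal_le_ofReal
        calc _ = (m : ℝ) ^ (N + 1) * (κ1 * (B ^ 2 * (δ * S)) ^ ((p - q) / 2) * D ^ q) := by ring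
          _ ≤ _ := by gcongr



/-- the increment -/
noncomputable def dd {n : ℕ} {𝕊 : Set (E n)} (m N : ℕ) (e : E n) (P : Fin m → E n → ℝ) (z : Fin (N + 1) → Fin m)
    (x : 𝕊) : ℝ :=
  P (z (kap N ⟪e, (x : E n)⟫)) x - (∑ w, P w x) / m

theorem dd_meas (m N : ℕ) (e : E n) (P : Fin m → E n → ℝ) (hP : ∀ w, Continuous (P w))
    (z : Fin (N + 1) → Fin m) : Measurable (dd (𝕊 := 𝕊) m N e P z) := by
  unfold dd
  have h1 : Measurable fun x : 𝕊 => kap N ⟪e, (x : E n)⟫ :=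
    (kap_meas N).comp (by fun_prop)
  have h2 : Measurable fun x : 𝕊 => P (z (kap N ⟪e, (x : E n)⟫)) (x : E n) := by
    have h3 : (fun x : 𝕊 => P (z (kap N ⟪e, (x : E n)⟫)) (x : E n)) =
        fun x : 𝕊 => ∑ i : Fin (N + 1), if kap N ⟪e, (x : E n)⟫ = i then P (z i) (x : E n) else 0 := by
      funext x
      rw [Finset.sum_ite_eq]
      simp
    rw [h3]
    refine Finset.measurable_fun_sum _ fun i _ => Measurable.ite (h1 (measurableSet_singleton i))
      ?_ measurable_const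
    exact ((hP _).comp continuous_subtype_val).measurable
  refine h2.sub ?_
  refine Measurable.div_const (Finset.measurable_fun_sum _ fun w _ => ?_) _
  exact ((hP _).comp continuous_subtype_val).measurable

theorem dd_le (m N : ℕ) (hm : 1 ≤ m) (e : E n) (P : Fin m → E n → ℝ)
    (hP : ∀ w (x : 𝕊), |P w x| ≤ 2)
    (z : Fin (N + 1) → Fin m) (x : 𝕊) : |dd m N e P z x| ≤ 4 := by
  unfold dd
  have hm0 : (0 : ℝ) < m := by exact_mod_cast hm
  have h1 : |(∑ w, P w x) / m| ≤ 2 := by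
    rw [abs_div, abs_of_pos hm0, div_le_iff₀ hm0]
    calc |∑ w, P w x| ≤ ∑ w, |P w x| := Finset.abs_sum_le_sum_abs _ _
      _ ≤ ∑ _w : Fin m, (2 : ℝ) := Finset.sum_le_sum fun w _ => hP w x
      _ = 2 * m := by simp; ring
  calc _ ≤ |P (z (kap N ⟪e, (x : E n)⟫)) x| + |(∑ w, P w x) / m| := abs_sub _ _
    _ ≤ 2 + 2 := add_le_add (hP _ _) h1
    _ = 4 := by norm_num

theorem dd_sum (m N : ℕ) (hm : 1 ≤ m) (e : E n) (P : Fin m → E n → ℝ) (L : Fin m → ℕ)
    (c : ∀ w, Fin (L w) → ℂ) (η : ∀ w, Fin (L w) → E n)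
    (hP : ∀ w x, trig (c w) (η w) x = (P w x : ℂ)) (z0 : Fin m) (h0 : (z0 : ℕ) = 0)
    (z : Fin (N + 1) → Fin m) (x : 𝕊) :
    (dd m N e P z x : ℂ) = ∑ w, (-(1 / (m : ℂ))) *
      tr (c w) (η w) e (Fz m N (fun i => Equiv.swap z0 w (z i))) x := by
  have hm0 : (m : ℂ) ≠ 0 := by exact_mod_cast (by omega : m ≠ 0)
  unfold tr Fz
  simp_rw [hP, zet_swap m z0 _ _ h0]
  set v := z (kap N ⟪e, (x : E n)⟫) with hv
  have h1 : ∀ w : Fin m, (-(1 / (m : ℂ))) * ((P w x : ℂ) *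
      (((if v = w then -((m : ℝ) - 1) else 1 : ℝ)) : ℂ)) =
      (if v = w then (P w x : ℂ) else 0) - (P w x : ℂ) / m := by
    intro w
    split_ifs
    · push_cast
      field_simp
    · push_cast
      field_simp
      ring
  rw [Finset.sum_congr rfl fun w _ => h1 w, Finset.sum_sub_distrib, Finset.sum_ite_eq,
    if_pos (Finset.mem_univ _), ← Finset.sum_div]
  unfold dd
  rw [← hv]
  push_cast
  ring

theorem ft_dd (m N : ℕ) (hm : 2 ≤ m) (e : E n) (P : Fin m → E n → ℝ) (L : Fin m → ℕ)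
    (c : ∀ w, Fin (L w) → ℂ) (η : ∀ w, Fin (L w) → E n)
    (hP : ∀ w x, trig (c w) (η w) x = (P w x : ℂ)) (z0 : Fin m) (h0 : (z0 : ℕ) = 0)
    (z : Fin (N + 1) → Fin m) (ξ : E n) :
    ft ν (fun x => (dd m N e P z x : ℂ)) ξ = ∑ w, (-(1 / (m : ℂ))) *
      ft ν (tr (c w) (η w) e (Fz m N (fun i => Equiv.swap z0 w (z i)))) ξ := by
  rw [show (fun x => (dd m N e P z x : ℂ)) = fun x => ∑ w, (-(1 / (m : ℂ))) *
      tr (c w) (η w) e (Fz m N (fun i => Equiv.swap z0 w (z i))) x from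
    funext fun x => dd_sum m N (by omega) e P L c η hP z0 h0 z x]
  rw [ft_sum]
  · refine Finset.sum_congr rfl fun w _ => ?_
    rw [ft_smul]
  · intro w _
    refine Integrable.const_mul ?_ _
    exact int_of_bdd (tr_meas _ _ e (Fz_meas m N _)) (tr_le _ _ e (Fz_le m N hm _))

/-- the averaged `L^p` bound for the increments -/
theorem avg_dd (m N : ℕ) (hm : 2 ≤ m) (p : ℝ) (hp : 1 ≤ p) (e : E n) (P : Fin m → E n → ℝ)
    (L : Fin m → ℕ)
    (c : ∀ w, Fin (L w) → ℂ) (η : ∀ w, Fin (L w) → E n)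
    (hP : ∀ w x, trig (c w) (η w) x = (P w x : ℂ)) (A : ℝ≥0∞)
    (hA : ∀ w, ∑ z : Fin (N + 1) → Fin m, ∫⁻ ξ, ‖ft ν (tr (c w) (η w) e (Fz m N z)) ξ‖ₑ ^ p ≤ A) :
    ∑ z : Fin (N + 1) → Fin m, ∫⁻ ξ, ‖ft ν (fun x => (dd m N e P z x : ℂ)) ξ‖ₑ ^ p ≤ A := by
  set z0 : Fin m := ⟨0, by omega⟩ with hz0
  have h0 : (z0 : ℕ) = 0 := rfl
  have hm0 : (m : ℝ≥0∞) ≠ 0 := by
    simp; omega
  have hmt : (m : ℝ≥0∞) ≠ ⊤ := ENNReal.natCast_ne_top m
  have hFc : ∀ w (z : Fin (N + 1) → Fin m), Continuous (ft ν (tr (c w) (η w) e (Fz m N z))) :=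
    fun w z => ft_cont (int_of_bdd (tr_meas _ _ e (Fz_meas m N z)) (tr_le _ _ e (Fz_le m N hm z)))
  have h1 : ∀ (z : Fin (N + 1) → Fin m) (ξ : E n),
      ‖ft ν (fun x => (dd m N e P z x : ℂ)) ξ‖ₑ ^ p ≤ ∑ w, (m : ℝ≥0∞)⁻¹ *
        ‖ft ν (tr (c w) (η w) e (Fz m N (fun i => Equiv.swap z0 w (z i)))) ξ‖ₑ ^ p := by
    intro z ξ
    rw [ft_dd m N hm e P L c η hP z0 h0]
    have h2 : ‖∑ w, (-(1 / (m : ℂ))) *
        ft ν (tr (c w) (η w) e (Fz m N (fun i => Equiv.swap z0 w (z i)))) ξ‖ₑ ≤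
        ∑ w, (m : ℝ≥0∞)⁻¹ *
        ‖ft ν (tr (c w) (η w) e (Fz m N (fun i => Equiv.swap z0 w (z i)))) ξ‖ₑ := by
      refine (enorm_sum_le _ _).trans (Finset.sum_le_sum fun w _ => ?_)
      have hmn : ‖(m : ℂ)‖ₑ = (m : ℝ≥0∞) := by
        rw [← ofReal_norm, Complex.norm_natCast, ENNReal.ofReal_natCast]
      rw [enorm_mul, enorm_neg, one_div, enorm_inv (by exact_mod_cast (by omega : m ≠ 0)), hmn]
    refine (ENNReal.rpow_le_rpow h2 (by linarith)).trans ?_
    exact ENNReal.rpow_arith_mean_le_arith_mean_rpow Finset.univ (fun _ => (m : ℝ≥0∞)⁻¹) _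
      (by
        rw [Finset.sum_const, Finset.card_univ, Fintype.card_fin, nsmul_eq_mul]
        exact ENNReal.mul_inv_cancel hm0 hmt) hp
  calc ∑ z : Fin (N + 1) → Fin m, ∫⁻ ξ, ‖ft ν (fun x => (dd m N e P z x : ℂ)) ξ‖ₑ ^ p
      ≤ ∑ z : Fin (N + 1) → Fin m, ∫⁻ ξ, ∑ w, (m : ℝ≥0∞)⁻¹ *
        ‖ft ν (tr (c w) (η w) e (Fz m N (fun i => Equiv.swap z0 w (z i)))) ξ‖ₑ ^ p :=
        Finset.sum_le_sum fun z _ => lintegral_mono (h1 z)
    _ = ∑ z : Fin (N + 1) → Fin m, ∑ w, (m : ℝ≥0∞)⁻¹ * ∫⁻ ξ,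
        ‖ft ν (tr (c w) (η w) e (Fz m N (fun i => Equiv.swap z0 w (z i)))) ξ‖ₑ ^ p := by
        refine Finset.sum_congr rfl fun z _ => ?_
        rw [lintegral_finsetSum _ fun w _ => (((hFc w _).measurable.enorm.pow_const p).const_mul _)]
        refine Finset.sum_congr rfl fun w _ => ?_
        rw [lintegral_const_mul _ ((hFc w _).measurable.enorm.pow_const p)]
    _ = ∑ w, (m : ℝ≥0∞)⁻¹ * ∑ z : Fin (N + 1) → Fin m, ∫⁻ ξ,
        ‖ft ν (tr (c w) (η w) e (Fz m N z)) ξ‖ₑ ^ p := by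
        rw [Finset.sum_comm]
        refine Finset.sum_congr rfl fun w _ => ?_
        rw [← Finset.mul_sum]
        congr 1
        exact Equiv.sum_comp (Equiv.piCongrRight fun _ : Fin (N + 1) => Equiv.swap z0 w)
          (fun z => ∫⁻ ξ, ‖ft ν (tr (c w) (η w) e (Fz m N z)) ξ‖ₑ ^ p)
    _ ≤ ∑ _w : Fin m, (m : ℝ≥0∞)⁻¹ * A := by
        gcongr with w _
        exact hA w
    _ = A := by
        rw [Finset.sum_const, Finset.card_univ, Fintype.card_fin, nsmul_eq_mul, ← mul_assoc,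
          ENNReal.mul_inv_cancel hm0 hmt, one_mul]


/-- the mean error of the approximation of the coefficients -/
noncomputable def er {n : ℕ} {𝕊 : Set (E n)} (m : ℕ) (P : Fin m → E n → ℝ) (t : 𝕊 → ℝ)
    (x : 𝕊) : ℝ := (∑ w, |P w x - cw m (Int.fract (t x)) w|) / m

theorem pt_cost1 (m N : ℕ) (hm : 1 ≤ m) (e : E n) (P : Fin m → E n → ℝ)
    (t : 𝕊 → ℝ) (x : 𝕊) :
    ∑ z : Fin (N + 1) → Fin m, |dd m N e P z x| ≤
      (m : ℝ) ^ (N + 1) * (2 * dz (t x) + 2 * er m P t x) := by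
  have hne : Nonempty (Fin m) := ⟨⟨0, by omega⟩⟩
  have hm0 : (0 : ℝ) < m := by exact_mod_cast hm
  have h1 := sum_one (fun w : Fin m => |P w x - (∑ w, P w x) / m|) (kap N ⟪e, (x : E n)⟫)
  rw [Fintype.card_fin] at h1
  unfold dd
  rw [h1]
  gcongr
  rw [div_le_iff₀ hm0]
  set l := Int.fract (t x) with hl
  have hl0 : 0 ≤ l := Int.fract_nonneg _
  have hl1 : l < 1 := Int.fract_lt_one _
  have h2 : (∑ w, P w x) / m - l = (∑ w, (P w x - cw m l w)) / m := by
    rw [Finset.sum_sub_distrib, cw_sum m hm l hl0 hl1, sub_div, mul_div_cancel_left₀ _ hm0.ne']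
  have h3 : |(∑ w, P w x) / m - l| ≤ er m P t x := by
    rw [h2, abs_div, abs_of_pos hm0]
    unfold er
    gcongr
    exact Finset.abs_sum_le_sum_abs _ _
  have h4 : ∀ w : Fin m, |P w x - (∑ w, P w x) / m| ≤
      |P w x - cw m l w| + |cw m l w - l| + er m P t x := by
    intro w
    have : P w x - (∑ w, P w x) / m = (P w x - cw m l w) + (cw m l w - l) -
      ((∑ w, P w x) / m - l) := by ring
    rw [this]
    exact (abs_sub _ _).trans (add_le_add (abs_add_le _ _) h3)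
  calc ∑ w, |P w x - (∑ w, P w x) / m|
      ≤ ∑ w, (|P w x - cw m l w| + |cw m l w - l| + er m P t x) :=
        Finset.sum_le_sum fun w _ => h4 w
    _ = m * er m P t x + ∑ w, |cw m l w - l| + m * er m P t x := by
        rw [Finset.sum_add_distrib, Finset.sum_add_distrib, Finset.sum_const, Finset.card_univ,
          Fintype.card_fin, nsmul_eq_mul]
        congr 2
        unfold er
        rw [mul_div_cancel₀ _ hm0.ne']
    _ ≤ m * er m P t x + m * (2 * dz (t x)) + m * er m P t x := by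
        gcongr
        exact cw_dev m hm (t x)
    _ = _ := by ring

theorem pt_cost2 (m N : ℕ) (hm : 1 ≤ m) (e : E n) (P : Fin m → E n → ℝ)
    (t : 𝕊 → ℝ) (x : 𝕊) :
    ∑ z : Fin (N + 1) → Fin m, dz (t x + dd m N e P z x) ≤
      (m : ℝ) ^ (N + 1) * (1 / m + 2 * er m P t x) := by
  have hne : Nonempty (Fin m) := ⟨⟨0, by omega⟩⟩
  have hm0 : (0 : ℝ) < m := by exact_mod_cast hm
  have h1 := sum_one (fun w : Fin m => dz (t x + (P w x - (∑ w, P w x) / m)))
    (kap N ⟪e, (x : E n)⟫)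
  rw [Fintype.card_fin] at h1
  unfold dd
  rw [h1]
  gcongr
  rw [div_le_iff₀ hm0]
  set l := Int.fract (t x) with hl
  have hl0 : 0 ≤ l := Int.fract_nonneg _
  have hl1 : l < 1 := Int.fract_lt_one _
  have h2 : (∑ w, P w x) / m - l = (∑ w, (P w x - cw m l w)) / m := by
    rw [Finset.sum_sub_distrib, cw_sum m hm l hl0 hl1, sub_div, mul_div_cancel_left₀ _ hm0.ne']
  have h3 : |(∑ w, P w x) / m - l| ≤ er m P t x := by
    rw [h2, abs_div, abs_of_pos hm0]
    unfold er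
    gcongr
    exact Finset.abs_sum_le_sum_abs _ _
  have h4 : ∀ w : Fin m, dz (t x + (P w x - (∑ w, P w x) / m)) ≤
      (if (w : ℕ) = 0 then 1 else 0) + (|P w x - cw m l w| + er m P t x) := by
    intro w
    have : t x + (P w x - (∑ w, P w x) / m) = (t x + (cw m l w - l)) +
      ((P w x - cw m l w) - ((∑ w, P w x) / m - l)) := by ring
    rw [this]
    refine (dz_lip _ _).trans (add_le_add (cw_hit m (t x) w) ?_)
    exact (abs_sub _ _).trans (add_le_add le_rfl h3)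
  have h5 : ∑ w : Fin m, (if (w : ℕ) = 0 then (1 : ℝ) else 0) ≤ 1 := by
    obtain ⟨k, rfl⟩ : ∃ k, m = k + 1 := ⟨m - 1, by omega⟩
    rw [Fin.sum_univ_succ]
    simp
  calc ∑ w, dz (t x + (P w x - (∑ w, P w x) / m))
      ≤ ∑ w : Fin m, ((if (w : ℕ) = 0 then 1 else 0) + (|P w x - cw m l w| + er m P t x)) :=
        Finset.sum_le_sum fun w _ => h4 w
    _ = ∑ w : Fin m, (if (w : ℕ) = 0 then (1 : ℝ) else 0) + (m * er m P t x + m * er m P t x) := by
        rw [Finset.sum_add_distrib, Finset.sum_add_distrib, Finset.sum_const, Finset.card_univ,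
          Fintype.card_fin, nsmul_eq_mul]
        congr 2
        unfold er
        rw [mul_div_cancel₀ _ hm0.ne']
    _ ≤ 1 + (m * er m P t x + m * er m P t x) := by gcongr
    _ = _ := by field_simp; ring



variable [CompactSpace 𝕊]

theorem int_small (f : 𝕊 → ℝ) (hf : Measurable f) (h0 : ∀ x, 0 ≤ f x)
    (h3 : ∀ x, f x ≤ 3) (ρ : ℝ) (hρ : 0 < ρ) (ε : ℝ) (hε : 0 < ε)
    (hm : ν {x | ρ < f x} ≤ ENNReal.ofReal ε) :
    ∫ x, f x ∂ν ≤ ρ * ν.real univ + 3 * ε := by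
  have hms : MeasurableSet {x | ρ < f x} := measurableSet_lt measurable_const hf
  have hi : Integrable f ν := Integrable.of_bound hf.aestronglyMeasurable 3
    (Filter.Eventually.of_forall fun x => by
      rw [Real.norm_eq_abs, abs_of_nonneg (h0 x)]; exact h3 x)
  have h1 : ∀ x, f x ≤ ρ + ({x | ρ < f x}).indicator (fun _ => (3 : ℝ)) x := by
    intro x
    by_cases hx : ρ < f x
    · rw [indicator_of_mem (show x ∈ {x | ρ < f x} from hx)]
      linarith [h3 x]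
    · rw [indicator_of_notMem (show x ∉ {x | ρ < f x} from hx)]
      linarith [not_lt.1 hx]
  have h2 : Integrable (({x | ρ < f x}).indicator (fun _ => (3 : ℝ))) ν :=
    (integrable_const _).indicator hms
  calc ∫ x, f x ∂ν ≤ ∫ x, (ρ + ({x | ρ < f x}).indicator (fun _ => (3 : ℝ)) x) ∂ν :=
        integral_mono hi ((integrable_const _).add h2) h1
    _ = ρ * ν.real univ + 3 * ν.real {x | ρ < f x} := by
        rw [integral_add (integrable_const _) h2, integral_const, integral_indicator hms,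
          setIntegral_const, smul_eq_mul, smul_eq_mul]
        ring
    _ ≤ _ := by
        gcongr
        exact ENNReal.toReal_le_of_le_ofReal hε.le hm

theorem cwt_meas (m : ℕ) (t : 𝕊 → ℝ) (ht : Measurable t) (w : Fin m) :
    Measurable fun x => cw m (Int.fract (t x)) w := (cw_meas m w).comp (measurable_fract.comp ht)

theorem family (ν : Measure 𝕊) [IsFiniteMeasure ν] (t : 𝕊 → ℝ) (ht : Measurable t) (m : ℕ) (κ : ℝ) (hκ : 0 < κ) :
    ∃ (P : Fin m → E n → ℝ) (L : Fin m → ℕ) (c : ∀ w, Fin (L w) → ℂ)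
      (η : ∀ w, Fin (L w) → E n),
      (∀ w x, trig (c w) (η w) x = (P w x : ℂ)) ∧ (∀ w, Continuous (P w)) ∧
      (∀ w (x : 𝕊), |P w x| ≤ 2) ∧
      ∀ w, ∫ x, |P w x - cw m (Int.fract (t x)) w| ∂ν ≤ κ := by
  set S : ℝ := ν.real univ with hS
  have hS0 : 0 ≤ S := measureReal_nonneg
  have h : ∀ w : Fin m, ∃ (P : E n → ℝ) (L : ℕ) (c : Fin L → ℂ) (η : Fin L → E n),
      (∀ x, trig c η x = (P x : ℂ)) ∧ Continuous P ∧
      (∀ x : 𝕊, |P x| ≤ 2) ∧
      ∫ x, |P x - cw m (Int.fract (t x)) w| ∂ν ≤ κ := by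
    intro w
    have hcm := cwt_meas m t ht w
    have hmem : ∀ x, 0 ≤ cw m (Int.fract (t x)) w ∧ cw m (Int.fract (t x)) w ≤ 1 := fun x =>
      cw_mem m _ (Int.fract_nonneg _) w
    obtain ⟨L, c, η, h1, h2⟩ := approx ν (fun x => (cw m (Int.fract (t x)) w : ℂ))
      (Complex.measurable_ofReal.comp hcm) 1 one_pos (fun x => by
        rw [Complex.norm_real, Real.norm_eq_abs, abs_of_nonneg (hmem x).1]; exact (hmem x).2)
      (κ / (2 * (S + 1))) (by positivity) (κ / 6) (by positivity)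
    obtain ⟨L', c', η', h3⟩ := re_trig c η
    refine ⟨fun x => (trig c η x).re, L', c', η', h3, Complex.continuous_re.comp (trig_cont c η),
      ?_, ?_⟩
    · intro x
      refine (Complex.abs_re_le_norm _).trans ((h1 x).trans (by norm_num))
    · have hPm : Measurable fun x : 𝕊 => (trig c η (x : E n)).re :=
        ((Complex.continuous_re.comp (trig_cont c η)).comp continuous_subtype_val).measurable
      have hle : ∀ x : 𝕊, |(trig c η (x : E n)).re - cw m (Int.fract (t x)) w| ≤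
          ‖(cw m (Int.fract (t x)) w : ℂ) - trig c η x‖ := by
        intro x
        have : (trig c η (x : E n)).re - cw m (Int.fract (t x)) w =
          -((cw m (Int.fract (t x)) w : ℂ) - trig c η x).re := by simp
        rw [this, abs_neg]
        exact Complex.abs_re_le_norm _
      have h4 := int_small (n := n) (ν := ν) (fun x => |(trig c η (x : E n)).re -
        cw m (Int.fract (t x)) w|) ((hPm.sub hcm).abs) (fun x => abs_nonneg _) (fun x => by
          have e1 : |(trig c η (x : E n)).re| ≤ 2 :=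
            (Complex.abs_re_le_norm _).trans ((h1 x).trans (by norm_num))
          have e2 := hmem x
          rw [abs_le] at e1 ⊢
          constructor <;> linarith [e1.1, e1.2, e2.1, e2.2])
        (κ / (2 * (S + 1))) (by positivity) (κ / 6) (by positivity)
        ((measure_mono fun x hx => lt_of_lt_of_le hx (hle x)).trans h2)
      refine h4.trans ?_
      rw [← hS]
      have : κ / (2 * (S + 1)) * S ≤ κ / 2 := by
        rw [div_mul_eq_mul_div, div_le_div_iff₀ (by positivity) (by norm_num)]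
        nlinarith
      linarith
  choose P L c η h1 h2 h3 h4 using h
  exact ⟨P, L, c, η, h1, h2, h3, h4⟩

theorem er_meas (m : ℕ) (P : Fin m → E n → ℝ) (hP : ∀ w, Continuous (P w))
    (t : 𝕊 → ℝ) (ht : Measurable t) : Measurable (er m P t) := by
  unfold er
  refine Measurable.div_const (Finset.measurable_fun_sum _ fun w _ => ?_) _
  exact ((((hP w).comp continuous_subtype_val).measurable).sub (cwt_meas m t ht w)).abs

theorem er_bd (m : ℕ) (hm : 1 ≤ m) (P : Fin m → E n → ℝ)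
    (hP2 : ∀ w (x : 𝕊), |P w x| ≤ 2)
    (t : 𝕊 → ℝ) (x : 𝕊) : 0 ≤ er m P t x ∧ er m P t x ≤ 3 := by
  have hm0 : (0 : ℝ) < m := by exact_mod_cast hm
  unfold er
  refine ⟨by positivity, ?_⟩
  rw [div_le_iff₀ hm0]
  calc _ ≤ ∑ _w : Fin m, (3 : ℝ) := Finset.sum_le_sum fun w _ => by
        have e1 := hP2 w x
        have e2 := cw_mem m (Int.fract (t x)) (Int.fract_nonneg _) w
        rw [abs_le] at e1 ⊢
        constructor <;> linarith [e1.1, e1.2, e2.1, e2.2]
    _ = 3 * m := by simp; ring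

theorem er_int (m : ℕ) (hm : 1 ≤ m) (P : Fin m → E n → ℝ) (hP : ∀ w, Continuous (P w))
    (hP2 : ∀ w (x : 𝕊), |P w x| ≤ 2)
    (t : 𝕊 → ℝ) (ht : Measurable t) (κ : ℝ)
    (h : ∀ w, ∫ x, |P w x - cw m (Int.fract (t x)) w| ∂ν ≤ κ) :
    ∫ x, er m P t x ∂ν ≤ κ := by
  have hm0 : (0 : ℝ) < m := by exact_mod_cast hm
  unfold er
  rw [integral_div, div_le_iff₀ hm0, integral_finsetSum]
  · calc _ ≤ ∑ _w : Fin m, κ := Finset.sum_le_sum fun w _ => h w
      _ = κ * m := by simp; ring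
  · intro w _
    refine Integrable.of_bound ((((hP w).comp continuous_subtype_val).measurable).sub
      (cwt_meas m t ht w)).abs.aestronglyMeasurable 3 (Filter.Eventually.of_forall fun x => ?_)
    have e1 := hP2 w x
    have e2 := cw_mem m (Int.fract (t x)) (Int.fract_nonneg _) w
    rw [Real.norm_eq_abs, abs_abs]
    rw [abs_le] at e1 ⊢
    constructor <;> linarith [e1.1, e1.2, e2.1, e2.2]



end Pool.Agent.X331.SP
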