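import Mathlib
import Pool.Agent.X331.SP.Main
set_option autoImplicit false
set_option linter.unusedSectionVars false

/-! From indicator functions to bounded functions. -/

namespace Pool.Agent.X331.SP

open MeasureTheory Set Metric Complex Filter Topology
open scoped ENNReal NNReal RealInnerProductSpace
open Pool.Agent.X93.ST.Slab (kap kap_meas)

variable {n : ℕ} {𝕊 : Set (E n)} {ν : Measure 𝕊} [IsFiniteMeasure ν]

/-- the indicator function of a set, complex valued -/
noncomputable def ind {n : ℕ} {𝕊 : Set (E n)} (A : Set (𝕊)) (x : 𝕊) : ℂ :=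
  A.indicator (fun _ => (1 : ℂ)) x

theorem ind_meas {A : Set (𝕊)} (hA : MeasurableSet A) :
    Measurable (ind A) := measurable_const.indicator hA

theorem ind_le (A : Set (𝕊)) (x : 𝕊) :
    ‖ind A x‖ ≤ 1 := by
  unfold ind
  by_cases h : x ∈ A
  · rw [indicator_of_mem h]; simp
  · rw [indicator_of_notMem h]; simp

theorem ind_int {A : Set (𝕊)} (hA : MeasurableSet A) :
    Integrable (ind A) ν := int_of_bdd (ind_meas hA) (ind_le A)

theorem fatou (f : ℕ → 𝕊 → ℂ) (g : 𝕊 → ℂ)
    (hf : ∀ k, Integrable (f k) ν) (hg : Integrable g ν)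
    (h : Tendsto (fun k => ∫ x, ‖f k x - g x‖ ∂ν) atTop (𝓝 0)) (r B : ℝ≥0∞)
    (hB : ∀ k, eLpNorm (ft ν (f k)) r volume ≤ B) : eLpNorm (ft ν g) r volume ≤ B := by
  have h1 := Lp.eLpNorm_lim_le_liminf_eLpNorm (p := r) (μ := (volume : Measure (E n)))
    (f := fun k => ft ν (f k)) (fun k => (ft_cont (hf k)).aestronglyMeasurable) (ft ν g)
    (Eventually.of_forall fun ξ => by
      rw [tendsto_iff_norm_sub_tendsto_zero]
      refine squeeze_zero (fun k => norm_nonneg _) (fun k => ?_) h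
      rw [← ft_sub (hf k) hg]
      exact ft_norm_le _ _)
  exact h1.trans (liminf_le_of_frequently_le' (Frequently.of_forall hB))

/-- the space of sets -/
def XX {n : ℕ} {𝕊 : Set (E n)} (ν : Measure 𝕊) : Set (Lp ℝ 1 ν) := {f | ∀ᵐ x ∂ν, f x = 0 ∨ f x = 1}

theorem XX_closed (ν : Measure 𝕊) : IsClosed (XX ν) := by
  apply IsSeqClosed.isClosed
  intro u f hu hlim
  have h1 : TendstoInMeasure ν (fun k => (u k : 𝕊 → ℝ)) atTop f :=
    tendstoInMeasure_of_tendsto_Lp hlim
  obtain ⟨ns, hns, hae⟩ := h1.exists_seq_tendsto_ae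
  have h3 : ∀ᵐ x ∂ν, ∀ k, u (ns k) x = 0 ∨ u (ns k) x = 1 :=
    ae_all_iff.2 fun k => hu (ns k)
  change ∀ᵐ x ∂ν, f x = 0 ∨ f x = 1
  filter_upwards [hae, h3] with x hx h2
  have hc : IsClosed ({0, 1} : Set ℝ) := (Set.toFinite _).isClosed
  exact hc.mem_of_tendsto hx (Eventually.of_forall h2)

theorem tendsto_int (u : ℕ → Lp ℝ 1 ν) (f : Lp ℝ 1 ν)
    (h : Tendsto u atTop (𝓝 f)) :
    Tendsto (fun k => ∫ x, ‖((u k x : ℝ) : ℂ) - ((f x : ℝ) : ℂ)‖ ∂ν) atTop (𝓝 0) := by
  rw [tendsto_iff_norm_sub_tendsto_zero] at h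
  refine h.congr fun k => ?_
  rw [L1.norm_eq_integral_norm]
  refine integral_congr_ae ?_
  filter_upwards [Lp.coeFn_sub (u k) f] with x hx
  rw [hx, Pi.sub_apply, ← Complex.ofReal_sub, Complex.norm_real]

theorem lp_int (f : Lp ℝ 1 ν) :
    Integrable (fun x => ((f x : ℝ) : ℂ)) ν := (L1.integrable_coeFn f).ofReal

theorem FN_closed (r B : ℝ≥0∞) :
    IsClosed {f : XX ν | eLpNorm (ft ν fun x => (((f : Lp ℝ 1 ν) x : ℝ) : ℂ)) r volume ≤
      B} := by
  apply IsSeqClosed.isClosed
  intro u f hu hlim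
  refine fatou (fun k x => (((u k : Lp ℝ 1 ν) x : ℝ) : ℂ)) _ (fun k => lp_int _)
    (lp_int _) ?_ r B hu
  exact tendsto_int _ _ ((continuous_subtype_val.tendsto f).comp hlim)

theorem small_sets (p : ℝ) (hp : 1 ≤ p)
    (h : ∀ A : Set (𝕊), MeasurableSet A →
      MemLp (ft ν (ind A)) (ENNReal.ofReal p)) :
    ∃ N : ℕ, ∃ δ : ℝ, 0 < δ ∧ ∀ B : Set (𝕊), MeasurableSet B →
      ν.real B < δ → eLpNorm (ft ν (ind B)) (ENNReal.ofReal p) volume ≤ 2 * N := by
  have hp1 : 1 ≤ ENNReal.ofReal p := by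
    rw [← ENNReal.ofReal_one]; exact ENNReal.ofReal_le_ofReal hp
  have hcs : CompleteSpace (XX ν) := (XX_closed ν).completeSpace_coe
  have hne : Nonempty (XX ν) := by
    refine ⟨⟨0, ?_⟩⟩
    change ∀ᵐ x ∂ν, (0 : Lp ℝ 1 ν) x = 0 ∨ (0 : Lp ℝ 1 ν) x = 1
    filter_upwards [Lp.coeFn_zero ℝ 1 ν] with x hx
    left; rw [hx]; rfl
  -- sets of elements
  have hset : ∀ f : XX ν, MeasurableSet {x | (f : Lp ℝ 1 ν) x = 1} ∧
      (fun x => (((f : Lp ℝ 1 ν) x : ℝ) : ℂ)) =ᵐ[ν]
        ind {x | (f : Lp ℝ 1 ν) x = 1} := by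
    intro f
    refine ⟨(Lp.stronglyMeasurable (f : Lp ℝ 1 ν)).measurable
      (measurableSet_singleton (1 : ℝ)), ?_⟩
    have hf : ∀ᵐ x ∂ν, (f : Lp ℝ 1 ν) x = 0 ∨ (f : Lp ℝ 1 ν) x = 1 := f.2
    filter_upwards [hf] with x hx
    unfold ind
    rcases hx with hx | hx
    · rw [indicator_of_notMem (by simp [hx]), hx]; simp
    · rw [indicator_of_mem (by simp [hx]), hx]; simp
  have hftc : ∀ (f g : 𝕊 → ℂ), f =ᵐ[ν] g → ft ν f = ft ν g := by
    intro f g hfg
    funext ξ
    unfold ft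
    refine integral_congr_ae ?_
    filter_upwards [hfg] with x hx
    rw [hx]
  obtain ⟨N, hN⟩ := nonempty_interior_of_iUnion_of_closed
    (f := fun N : ℕ => {f : XX ν | eLpNorm (ft ν fun x =>
      (((f : Lp ℝ 1 ν) x : ℝ) : ℂ)) (ENNReal.ofReal p) volume ≤ N})
    (fun N => FN_closed _ _) (by
      rw [eq_univ_iff_forall]
      intro f
      rw [mem_iUnion]
      have h1 := (h _ (hset f).1).2
      rw [← hftc _ _ (hset f).2] at h1
      obtain ⟨N, hN⟩ := ENNReal.exists_nat_gt h1.ne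
      exact ⟨N, hN.le⟩)
  obtain ⟨f0, hf0⟩ := hN
  rw [mem_interior_iff_mem_nhds, Metric.mem_nhds_iff] at hf0
  obtain ⟨δ, hδ, hball⟩ := hf0
  refine ⟨N, δ, hδ, fun B hB hBδ => ?_⟩
  set A0 : Set (𝕊) := {x | (f0 : Lp ℝ 1 ν) x = 1} with hA0
  have hA0m : MeasurableSet A0 := (hset f0).1
  -- elements of the ball
  have key : ∀ A : Set (𝕊), MeasurableSet A → (∀ x, x ∉ B → (x ∈ A ↔ x ∈ A0)) →
      eLpNorm (ft ν (ind A)) (ENNReal.ofReal p) volume ≤ N := by
    intro A hA hAB
    set fA : Lp ℝ 1 ν := indicatorConstLp 1 hA (measure_ne_top _ _) (1 : ℝ) with hfA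
    have hfe : ∀ᵐ x ∂ν, fA x = A.indicator (fun _ => (1 : ℝ)) x :=
      indicatorConstLp_coeFn
    have hmem : fA ∈ XX ν := by
      change ∀ᵐ x ∂ν, fA x = 0 ∨ fA x = 1
      filter_upwards [hfe] with x hx
      by_cases hxA : x ∈ A
      · right; rw [hx, indicator_of_mem hxA]
      · left; rw [hx, indicator_of_notMem hxA]
    have hd : dist (⟨fA, hmem⟩ : XX ν) f0 < δ := by
      rw [Subtype.dist_eq, dist_eq_norm, L1.norm_eq_integral_norm]
      refine lt_of_le_of_lt ?_ hBδ
      have h1 : ∫ x, ‖(fA - (f0 : Lp ℝ 1 ν) : Lp ℝ 1 ν) x‖ ∂ν ≤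
          ∫ x, B.indicator (fun _ => (1 : ℝ)) x ∂ν := by
        refine integral_mono_ae (L1.integrable_coeFn _).norm
          ((integrable_const _).indicator hB) ?_
        have hf : ∀ᵐ x ∂ν, (f0 : Lp ℝ 1 ν) x = 0 ∨
          (f0 : Lp ℝ 1 ν) x = 1 := f0.2
        filter_upwards [Lp.coeFn_sub fA (f0 : Lp ℝ 1 ν), hfe, hf] with x hx h1 h2
        rw [hx, Pi.sub_apply, h1]
        by_cases hxB : x ∈ B
        · rw [indicator_of_mem hxB]
          by_cases hxA : x ∈ A
          · rw [indicator_of_mem hxA]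
            rcases h2 with h2 | h2 <;> rw [h2] <;> norm_num
          · rw [indicator_of_notMem hxA]
            rcases h2 with h2 | h2 <;> rw [h2] <;> norm_num
        · rw [indicator_of_notMem hxB]
          have h3 := hAB x hxB
          by_cases hxA : x ∈ A
          · rw [indicator_of_mem hxA]
            have h4 : (f0 : Lp ℝ 1 ν) x = 1 := h3.1 hxA
            rw [h4]; simp
          · rw [indicator_of_notMem hxA]
            have h4 : ¬ ((f0 : Lp ℝ 1 ν) x = 1) := fun h => hxA (h3.2 h)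
            rcases h2 with h2 | h2
            · rw [h2]; simp
            · exact absurd h2 h4
      refine h1.trans (le_of_eq ?_)
      rw [integral_indicator hB, setIntegral_const]
      simp
    have h2 := hball (mem_ball.2 hd)
    have h3 : eLpNorm (ft ν fun x => ((fA x : ℝ) : ℂ)) (ENNReal.ofReal p) volume ≤ N := h2
    rw [← hftc (fun x => ((fA x : ℝ) : ℂ)) (ind A) ?_]
    · exact h3
    · filter_upwards [hfe] with x hx
      rw [hx]
      unfold ind
      by_cases hxA : x ∈ A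
      · rw [indicator_of_mem hxA, indicator_of_mem hxA]; simp
      · rw [indicator_of_notMem hxA, indicator_of_notMem hxA]; simp
  have k1 := key (A0 ∪ B) (hA0m.union hB) fun x hx => by simp [hx]
  have k2 := key (A0 \ B) (hA0m.diff hB) fun x hx => by simp [hx]
  have h4 : ft ν (ind B) = ft ν (ind (A0 ∪ B)) - ft ν (ind (A0 \ B)) := by
    funext ξ
    rw [Pi.sub_apply, ← ft_sub (ind_int (hA0m.union hB)) (ind_int (hA0m.diff hB))]
    congr 1
    funext x
    unfold ind
    by_cases hxB : x ∈ B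
    · rw [indicator_of_mem hxB, indicator_of_mem (by simp [hxB]),
        indicator_of_notMem (by simp [hxB])]; simp
    · by_cases hxA : x ∈ A0
      · rw [indicator_of_notMem hxB, indicator_of_mem (by simp [hxA]),
          indicator_of_mem (by simp [hxA, hxB])]; simp
      · rw [indicator_of_notMem hxB, indicator_of_notMem (by simp [hxA, hxB]),
          indicator_of_notMem (by simp [hxA])]; simp
  rw [h4]
  refine (eLpNorm_sub_le (ft_cont (ind_int (hA0m.union hB))).aestronglyMeasurable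
    (ft_cont (ind_int (hA0m.diff hB))).aestronglyMeasurable hp1).trans ?_
  rw [two_mul]
  exact add_le_add k1 k2

theorem all_sets {qc : ℝ} {e : E n} (H : Adm ν qc e) (p : ℝ) (hp : 1 ≤ p)
    (h : ∀ A : Set (𝕊), MeasurableSet A →
      MemLp (ft ν (ind A)) (ENNReal.ofReal p)) :
    ∃ C : ℝ≥0, ∀ B : Set (𝕊), MeasurableSet B →
      eLpNorm (ft ν (ind B)) (ENNReal.ofReal p) volume ≤ C := by
  obtain ⟨N, δ, hδ, hN⟩ := small_sets p hp h
  have hp1 : 1 ≤ ENNReal.ofReal p := by
    rw [← ENNReal.ofReal_one]; exact ENNReal.ofReal_le_ofReal hp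
  have hs := H.slabs
  obtain ⟨K, hK⟩ := hs (ENNReal.ofReal (δ / 2)) (by simp; positivity)
  refine ⟨(K + 1) * (2 * N), fun B hB => ?_⟩
  have hm : Measurable fun x : 𝕊 => kap K (⟪e, (x : E n)⟫ : ℝ) :=
    (kap_meas K).comp (by fun_prop)
  set T : Fin (K + 1) → Set (𝕊) := fun i =>
    B ∩ {x | kap K (⟪e, (x : E n)⟫ : ℝ) = i} with hT
  have hTm : ∀ i, MeasurableSet (T i) := fun i => hB.inter (hm (measurableSet_singleton i))
  have hTs : ∀ i, ν.real (T i) < δ := by
    intro i
    have h1 : ν (T i) ≤ ENNReal.ofReal (δ / 2) :=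
      (measure_mono inter_subset_right).trans (hK i)
    have h2 : ν.real (T i) ≤ δ / 2 := ENNReal.toReal_le_of_le_ofReal (by positivity) h1
    linarith
  have h4 : ft ν (ind B) = ∑ i, ft ν (ind (T i)) := by
    funext ξ
    rw [Finset.sum_apply, ← ft_sum Finset.univ fun i _ => ind_int (hTm i)]
    congr 1
    funext x
    rw [Finset.sum_eq_single (kap K (⟪e, (x : E n)⟫ : ℝ))]
    · unfold ind
      by_cases hxB : x ∈ B
      · rw [indicator_of_mem hxB, indicator_of_mem (by simp [hT, hxB])]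
      · rw [indicator_of_notMem hxB, indicator_of_notMem (by simp [hT, hxB])]
    · intro i _ hi
      unfold ind
      rw [indicator_of_notMem]
      intro hx
      exact hi hx.2.symm
    · intro h; exact absurd (Finset.mem_univ _) h
  rw [h4]
  refine (eLpNorm_sum_le (fun i _ => (ft_cont (ind_int (hTm i))).aestronglyMeasurable) hp1).trans ?_
  refine (Finset.sum_le_sum fun i _ => hN (T i) (hTm i) (hTs i)).trans ?_
  simp

/-- the dyadic truncation -/
noncomputable def dy {n : ℕ} {𝕊 : Set (E n)} (f : 𝕊 → ℝ) (k : ℕ) (x : 𝕊) : ℝ :=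
  ⌊2 ^ k * f x⌋ / 2 ^ k

theorem unit_bound (p : ℝ) (hp : 1 ≤ p) (C : ℝ≥0)
    (hC : ∀ B : Set (𝕊), MeasurableSet B →
      eLpNorm (ft ν (ind B)) (ENNReal.ofReal p) volume ≤ C)
    (f : 𝕊 → ℝ) (hf : Measurable f) (h0 : ∀ x, 0 ≤ f x) (h1 : ∀ x, f x < 1) :
    eLpNorm (ft ν fun x => (f x : ℂ)) (ENNReal.ofReal p) volume ≤ C := by
  have hp1 : 1 ≤ ENNReal.ofReal p := by
    rw [← ENNReal.ofReal_one]; exact ENNReal.ofReal_le_ofReal hp
  have hdm : ∀ k, Measurable (dy f k) := by
    intro k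
    have h2 : Measurable fun x => (⌊2 ^ k * f x⌋ : ℤ) :=
      Int.measurable_floor.comp (hf.const_mul _)
    have h3 : Measurable fun j : ℤ => ((j : ℤ) : ℝ) := measurable_from_top
    exact (h3.comp h2).div_const _
  have hd0 : ∀ k x, 0 ≤ dy f k x := by
    intro k x
    unfold dy
    have : (0 : ℝ) ≤ (⌊2 ^ k * f x⌋ : ℤ) := by
      exact_mod_cast Int.floor_nonneg.2 (mul_nonneg (by positivity) (h0 x))
    positivity
  have hd1 : ∀ k x, dy f k x ≤ f x := by
    intro k x
    unfold dy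
    rw [div_le_iff₀ (by positivity)]
    have := Int.floor_le (2 ^ k * f x)
    linarith
  have hd2 : ∀ k x, f x - dy f k x ≤ (1 / 2) ^ k := by
    intro k x
    unfold dy
    have h2 := (Int.lt_floor_add_one (2 ^ k * f x)).le
    have h3 : (0 : ℝ) < 2 ^ k := by positivity
    rw [one_div, inv_pow, sub_le_iff_le_add, ← one_div, ← add_div, le_div_iff₀ h3]
    linarith
  have hdi : ∀ k, Integrable (fun x => (dy f k x : ℂ)) ν := fun k =>
    int_of_bdd (M := 1) (Complex.measurable_ofReal.comp (hdm k)) fun x => by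
      rw [Complex.norm_real, Real.norm_eq_abs, abs_of_nonneg (hd0 k x)]
      exact (hd1 k x).trans (h1 x).le
  have hfi : Integrable (fun x => (f x : ℂ)) ν :=
    int_of_bdd (M := 1) (Complex.measurable_ofReal.comp hf) fun x => by
      rw [Complex.norm_real, Real.norm_eq_abs, abs_of_nonneg (h0 x)]
      exact (h1 x).le
  -- the digits
  set A : ℕ → Set (𝕊) := fun k =>
    {x | dy f (k + 1) x - dy f k x = 1 / 2 ^ (k + 1)} with hA
  have hAm : ∀ k, MeasurableSet (A k) := fun k =>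
    ((hdm (k + 1)).sub (hdm k)) (measurableSet_singleton _)
  have hdig : ∀ k x, (dy f (k + 1) x : ℂ) = (dy f k x : ℂ) +
      ((1 / 2 ^ (k + 1) : ℝ) : ℂ) * ind (A k) x := by
    intro k x
    set y : ℝ := 2 ^ k * f x with hy
    have e1 : (2 : ℝ) ^ (k + 1) * f x = 2 * y := by rw [hy]; ring
    have e2 : ⌊2 * y⌋ = 2 * ⌊y⌋ ∨ ⌊2 * y⌋ = 2 * ⌊y⌋ + 1 := by
      have a1 := Int.floor_le y
      have a2 := Int.lt_floor_add_one y
      have a3 : 2 * ⌊y⌋ ≤ ⌊2 * y⌋ := by
        rw [Int.le_floor]; push_cast; linarith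
      have a4 : ⌊2 * y⌋ < 2 * ⌊y⌋ + 2 := by
        rw [Int.floor_lt]; push_cast; linarith
      omega
    have e3 : dy f k x = ⌊y⌋ / 2 ^ k := rfl
    have e4 : dy f (k + 1) x = ⌊2 * y⌋ / 2 ^ (k + 1) := by
      unfold dy; rw [e1]
    have h3 : (0 : ℝ) < 2 ^ k := by positivity
    rcases e2 with e2 | e2
    · have e5 : dy f (k + 1) x = dy f k x := by
        rw [e4, e3, e2, pow_succ]; push_cast; field_simp
      have e6 : x ∉ A k := by
        simp only [hA, mem_setOf_eq, e5, sub_self]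
        intro h
        have : (0 : ℝ) < 1 / 2 ^ (k + 1) := by positivity
        linarith
      rw [e5, ind, indicator_of_notMem e6, mul_zero, add_zero]
    · have e5 : dy f (k + 1) x = dy f k x + 1 / 2 ^ (k + 1) := by
        rw [e4, e3, e2, pow_succ]; push_cast; field_simp
      have e6 : x ∈ A k := by
        simp only [hA, mem_setOf_eq, e5]; ring
      rw [ind, indicator_of_mem e6, mul_one, e5]
      push_cast
      ring
  have hd00 : ∀ x, dy f 0 x = 0 := by
    intro x
    unfold dy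
    have : ⌊(2 : ℝ) ^ 0 * f x⌋ = 0 := by
      rw [pow_zero, one_mul, Int.floor_eq_zero_iff]
      exact ⟨h0 x, h1 x⟩
    rw [this]; simp
  have hbd : ∀ k, eLpNorm (ft ν fun x => (dy f k x : ℂ)) (ENNReal.ofReal p) volume ≤
      ENNReal.ofReal (1 - (1 / 2) ^ k) * C := by
    intro k
    induction k with
    | zero =>
      have e1 : (fun x => ((dy f 0 x : ℝ) : ℂ)) = fun _ => 0 := by
        funext x; rw [hd00 x]; simp
      have e2 : ft ν (fun x : 𝕊 => ((dy f 0 x : ℝ) : ℂ)) = 0 := by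
        funext ξ
        rw [e1]
        unfold ft
        simp
      rw [e2]
      simp
    | succ k ih =>
      have e1 : ft ν (fun x => (dy f (k + 1) x : ℂ)) = ft ν (fun x => (dy f k x : ℂ)) +
          ((1 / 2 ^ (k + 1) : ℝ) : ℂ) • ft ν (ind (A k)) := by
        funext ξ
        rw [Pi.add_apply, Pi.smul_apply, smul_eq_mul, ← ft_smul,
          ← ft_add (hdi k) ((ind_int (hAm k)).const_mul _)]
        congr 1
        funext x
        exact hdig k x
      rw [e1]
      refine (eLpNorm_add_le (ft_cont (hdi k)).aestronglyMeasurable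
        ((ft_cont (ind_int (hAm k))).aestronglyMeasurable.const_smul _) hp1).trans ?_
      rw [eLpNorm_const_smul]
      have e2 : ‖((1 / 2 ^ (k + 1) : ℝ) : ℂ)‖ₑ = ENNReal.ofReal (1 / 2 ^ (k + 1)) := by
        rw [← ofReal_norm, Complex.norm_real, Real.norm_eq_abs, abs_of_pos (by positivity)]
      rw [e2]
      refine (add_le_add ih (mul_le_mul_right (hC _ (hAm k)) _)).trans ?_
      rw [← add_mul, ← ENNReal.ofReal_add (by
        have : (1 / 2 : ℝ) ^ k ≤ 1 := pow_le_one₀ (by norm_num) (by norm_num)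
        linarith) (by positivity)]
      refine le_of_eq ?_
      congr 2
      rw [pow_succ, pow_succ]
      simp only [one_div, inv_pow, mul_inv]
      ring
  refine fatou (fun k x => (dy f k x : ℂ)) _ hdi hfi ?_ _ _ fun k => (hbd k).trans ?_
  · have hS : Tendsto (fun k : ℕ => (1 / 2 : ℝ) ^ k * ν.real univ) atTop (𝓝 0) := by
      have := (tendsto_pow_atTop_nhds_zero_of_lt_one (show (0 : ℝ) ≤ 1 / 2 by norm_num)
        (by norm_num)).mul_const (ν.real univ)
      rwa [zero_mul] at this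
    refine squeeze_zero (fun k => integral_nonneg fun x => norm_nonneg _) (fun k => ?_) hS
    have hm1 : Measurable fun x => ((dy f k x : ℝ) : ℂ) - ((f x : ℝ) : ℂ) :=
      (Complex.measurable_ofReal.comp (hdm k)).sub (Complex.measurable_ofReal.comp hf)
    exact int_norm_le hm1 fun x => by
      rw [← Complex.ofReal_sub, Complex.norm_real, Real.norm_eq_abs, abs_sub_comm,
        abs_of_nonneg (by linarith [hd1 k x])]
      exact hd2 k x
  · calc ENNReal.ofReal (1 - (1 / 2) ^ k) * (C : ℝ≥0∞) ≤ 1 * C := by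
          refine mul_le_mul_left ?_ _
          rw [← ENNReal.ofReal_one]
          apply ENNReal.ofReal_le_ofReal
          have : (0 : ℝ) ≤ (1 / 2) ^ k := by positivity
          linarith
      _ = C := one_mul _

/-- **From sets to bounded densities.** -/
theorem of_sets {qc : ℝ} {e : E n} (H : Adm ν qc e) (p : ℝ) (hp : 1 ≤ p)
    (h : ∀ A : Set (𝕊), MeasurableSet A →
      MemLp (ft ν (ind A)) (ENNReal.ofReal p))
    (g : 𝕊 → ℂ) (hg : Measurable g) (M : ℝ) (hM : ∀ x, ‖g x‖ ≤ M) :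
    MemLp (ft ν g) (ENNReal.ofReal p) := by
  obtain ⟨C, hC⟩ := all_sets H p hp h
  have key : ∀ f : 𝕊 → ℝ, Measurable f → (∀ x, |f x| ≤ M) →
      MemLp (ft ν fun x => (f x : ℂ)) (ENNReal.ofReal p) := by
    intro f hf hfM
    set R : ℝ := 2 * (|M| + 1) with hR
    have hR0 : 0 < R := by positivity
    set u : 𝕊 → ℝ := fun x => f x / R + 1 / 2 with hu
    have hum : Measurable u := (hf.div_const _).add_const _
    have hfx : ∀ x, |f x / R| < 1 / 2 := by
      intro x
      rw [abs_div, abs_of_pos hR0, div_lt_iff₀ hR0]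
      have := hfM x
      have := le_abs_self M
      rw [hR]; linarith
    have hu0 : ∀ x, 0 ≤ u x := fun x => by
      have := (abs_lt.1 (hfx x)).1
      simp only [hu]; linarith
    have hu1 : ∀ x, u x < 1 := fun x => by
      have := (abs_lt.1 (hfx x)).2
      simp only [hu]; linarith
    have hui : Integrable (fun x => (u x : ℂ)) ν :=
      int_of_bdd (M := 1) (Complex.measurable_ofReal.comp hum) fun x => by
        rw [Complex.norm_real, Real.norm_eq_abs, abs_of_nonneg (hu0 x)]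
        exact (hu1 x).le
    have h1 : MemLp (ft ν fun x => (u x : ℂ)) (ENNReal.ofReal p) :=
      ⟨(ft_cont hui).aestronglyMeasurable,
        lt_of_le_of_lt (unit_bound p hp C hC u hum hu0 hu1) ENNReal.coe_lt_top⟩
    have h2 := h univ MeasurableSet.univ
    have e1 : (ft ν fun x => (f x : ℂ)) = fun ξ => (R : ℂ) * ft ν (fun x => (u x : ℂ)) ξ -
        ((R / 2 : ℝ) : ℂ) * ft ν (ind univ) ξ := by
      funext ξ
      rw [← ft_smul, ← ft_smul, ← ft_sub (hui.const_mul _)
        ((ind_int MeasurableSet.univ).const_mul _)]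
      congr 1
      funext x
      simp only [hu, ind, indicator_univ]
      push_cast
      have : (R : ℂ) ≠ 0 := by exact_mod_cast hR0.ne'
      field_simp
      ring
    rw [e1]
    exact (h1.const_mul _).sub (h2.const_mul _)
  have k1 := key (fun x => (g x).re) (Complex.measurable_re.comp hg) fun x =>
    (Complex.abs_re_le_norm _).trans (hM x)
  have k2 := key (fun x => (g x).im) (Complex.measurable_im.comp hg) fun x =>
    (Complex.abs_im_le_norm _).trans (hM x)
  have hi1 : Integrable (fun x => (((g x).re : ℝ) : ℂ)) ν :=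
    (int_of_bdd hg hM).re.ofReal
  have hi2 : Integrable (fun x => (((g x).im : ℝ) : ℂ)) ν :=
    (int_of_bdd hg hM).im.ofReal
  have e1 : ft ν g = fun ξ => ft ν (fun x => (((g x).re : ℝ) : ℂ)) ξ +
      I * ft ν (fun x => (((g x).im : ℝ) : ℂ)) ξ := by
    funext ξ
    rw [← ft_smul, ← ft_add hi1 (hi2.const_mul _)]
    congr 1
    funext x
    rw [mul_comm I]
    exact (Complex.re_add_im _).symm
  rw [e1]
  exact k1.add (k2.const_mul _)



end Pool.Agent.X331.SP
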