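import Mathlib
import Pool.Agent.X331.SP.Unif
import Pool.Agent.Results.MP_b7167f_an.OneRoughVariable
set_option autoImplicit false
set_option linter.unusedSectionVars false

/-! The extension operator of the paraboloid on functions of the first coordinate, on a set whose
vertical sections are unions of `N` intervals. -/

namespace Pool.Agent.X331.SP.Para

open MeasureTheory Set Metric Complex
open scoped ENNReal NNReal RealInnerProductSpace
open Pool.Agent.Results.MP_b7167f_an.OneRoughVariable (cube ext)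

theorem ord_shift (I : Set ℝ) (hI : I.OrdConnected) (h : ℝ) :
    volume {v | v ∈ I ∧ v + h ∉ I} ≤ ENNReal.ofReal |h| := by
  refine (Real.volume_le_diam _).trans (Metric.ediam_le ?_)
  have key : ∀ x ∈ {v | v ∈ I ∧ v + h ∉ I}, ∀ y ∈ {v | v ∈ I ∧ v + h ∉ I}, x ≤ y →
      y - x ≤ |h| := by
    rintro x ⟨hx1, hx2⟩ y ⟨hy1, hy2⟩ hxy
    by_contra hc
    push Not at hc
    rcases le_total 0 h with h0 | h0
    · rw [abs_of_nonneg h0] at hc
      exact hx2 (hI.out hx1 hy1 ⟨by linarith, by linarith⟩)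
    · rw [abs_of_nonpos h0] at hc
      exact hy2 (hI.out hx1 hy1 ⟨by linarith, by linarith⟩)
  intro x hx y hy
  rw [edist_dist, Real.dist_eq]
  apply ENNReal.ofReal_le_ofReal
  rcases le_total x y with hxy | hxy
  · rw [abs_sub_comm, abs_of_nonneg (by linarith)]
    exact key x hx y hy hxy
  · rw [abs_of_nonneg (by linarith)]
    exact key y hy x hx hxy

theorem sec_shift (N : ℕ) (S : Set ℝ) (I : Fin N → Set ℝ) (hI : ∀ j, (I j).OrdConnected)
    (hS : S = ⋃ j, I j) (h : ℝ) :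
    volume {v | v ∈ S ∧ v + h ∉ S} ≤ ENNReal.ofReal (N * |h|) := by
  have h1 : {v | v ∈ S ∧ v + h ∉ S} ⊆ ⋃ j, {v | v ∈ I j ∧ v + h ∉ I j} := by
    rintro v ⟨h2, h3⟩
    rw [hS, mem_iUnion] at h2
    obtain ⟨j, hj⟩ := h2
    refine mem_iUnion.2 ⟨j, hj, fun h4 => h3 ?_⟩
    rw [hS]; exact mem_iUnion.2 ⟨j, h4⟩
  refine (measure_mono h1).trans ((measure_iUnion_fintype_le _ _).trans ?_)
  refine (Finset.sum_le_sum fun j _ => ord_shift (I j) (hI j) h).trans (le_of_eq ?_)
  rw [Finset.sum_const, Finset.card_univ, Fintype.card_fin, nsmul_eq_mul,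
    ENNReal.ofReal_mul (by positivity), ENNReal.ofReal_natCast]

/-- the symmetric difference of a section and its translate -/
theorem sec_xor (N : ℕ) (S : Set ℝ) (I : Fin N → Set ℝ) (hI : ∀ j, (I j).OrdConnected)
    (hS : S = ⋃ j, I j) (h : ℝ) :
    volume {v | ¬ (v ∈ S ↔ v + h ∈ S)} ≤ ENNReal.ofReal (2 * N * |h|) := by
  have h1 : {v | ¬ (v ∈ S ↔ v + h ∈ S)} ⊆ {v | v ∈ S ∧ v + h ∉ S} ∪
      (fun v => v + h) ⁻¹' {v | v ∈ S ∧ v + (-h) ∉ S} := by
    intro v hv
    rw [mem_ofPred_eq] at hv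
    by_cases h2 : v ∈ S
    · left
      exact ⟨h2, fun h3 => hv ⟨fun _ => h3, fun _ => h2⟩⟩
    · right
      refine ⟨by_contra fun h3 => hv ⟨fun h4 => absurd h4 h2, fun h4 => absurd h4 h3⟩, ?_⟩
      rw [add_neg_cancel_right]; exact h2
  refine (measure_mono h1).trans ((measure_union_le _ _).trans ?_)
  rw [measure_preimage_add_right]
  have h2 := sec_shift N S I hI hS h
  have h3 := sec_shift N S I hI hS (-h)
  rw [abs_neg] at h3
  refine (add_le_add h2 h3).trans (le_of_eq ?_)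
  rw [← ENNReal.ofReal_add (by positivity) (by positivity)]
  congr 1; ring

/-- the function `F(ζ₀) 1_V(ζ)` -/
noncomputable def fU (V : Set (Fin 2 → ℝ)) (F : ℝ → ℂ) (ζ : Fin 2 → ℝ) : ℂ :=
  V.indicator (fun ζ => F (ζ 0)) ζ

theorem fU_meas {V : Set (Fin 2 → ℝ)} (hV : MeasurableSet V) {F : ℝ → ℂ} (hF : Measurable F) :
    Measurable (fU V F) := by
  unfold fU
  exact (hF.comp (measurable_pi_apply 0)).indicator hV

theorem cons1 (u : ℝ) (v : Fin 1 → ℝ) : (Fin.cons u v : Fin 2 → ℝ) = ![u, v 0] := by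
  funext i
  fin_cases i <;> rfl

theorem vol_one (D : Set ℝ) : volume {v : Fin 1 → ℝ | v 0 ∈ D} = volume D := by
  have h := (volume_preserving_funUnique (Fin 1) ℝ).measure_preimage_equiv D
  rw [← h]
  rfl

/-- the extension estimate -/
theorem plane (N : ℕ) (V : Set (Fin 2 → ℝ)) (hV : MeasurableSet V)
    (hsec : ∀ u : ℝ, ∃ I : Fin N → Set ℝ, (∀ j, (I j).OrdConnected) ∧
      {v : ℝ | ![u, v] ∈ V} = ⋃ j, I j) (q : ℝ) (hq : 3 < q) :
    ∃ C : ℝ≥0, ∀ F : ℝ → ℂ, Measurable F → ∀ M : ℝ, (∀ t, ‖F t‖ ≤ M) →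
      ∫⁻ y : (Fin 2 → ℝ) × ℝ, ‖ext (fU V F) y‖ₑ ^ q ≤ ENNReal.ofReal ((C * M) ^ q) := by
  obtain ⟨C, hC⟩ := Pool.Agent.Results.MP_b7167f_an.OneRoughVariable.result 1 le_rfl q 3
    (by norm_num; exact hq) (by norm_num) (by norm_num; linarith)
  refine ⟨C * (4 * (N + 1)), ?_⟩
  intro F hF M hM
  have hM0 : 0 ≤ M := (norm_nonneg _).trans (hM 0)
  have hN0 : (0 : ℝ) ≤ N := by positivity
  set K : ℝ≥0 := Real.toNNReal (4 * (N + 1) * M) with hK
  have hKr : (K : ℝ≥0∞) = ENNReal.ofReal (4 * (N + 1) * M) := rfl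
  have hnorm : ∀ ζ, ‖fU V F ζ‖ₑ ≤ ENNReal.ofReal M := by
    intro ζ
    rw [← ofReal_norm]
    apply ENNReal.ofReal_le_ofReal
    unfold fU
    by_cases hζ : ζ ∈ V
    · rw [indicator_of_mem hζ]; exact hM _
    · rw [indicator_of_notMem hζ, norm_zero]; exact hM0
  have hvolI : volume (Icc (-1 : ℝ) 1) = ENNReal.ofReal 2 := by
    rw [Real.volume_Icc]; norm_num
  have hcube : volume (cube 1) = ENNReal.ofReal 2 := by
    unfold cube
    rw [Real.volume_Icc_pi]
    norm_num
  have h := hC (fU V F) K (fU_meas hV hF) ?_ ?_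
  · refine h.trans (le_of_eq ?_)
    rw [hKr, ← ENNReal.ofReal_coe_nnreal, ← ENNReal.ofReal_mul NNReal.zero_le_coe,
      ENNReal.ofReal_rpow_of_nonneg (by positivity) (by linarith)]
    congr 1
    push_cast
    ring_nf
  · -- the size
    have h1 : ∀ u : ℝ, (∫⁻ v in cube 1, ‖fU V F (Fin.cons u v)‖ₑ ^ 2) ^ ((3 : ℝ) / 2) ≤
        ENNReal.ofReal (4 * M ^ 3) := by
      intro u
      have h2 : ∫⁻ v in cube 1, ‖fU V F (Fin.cons u v)‖ₑ ^ 2 ≤ ENNReal.ofReal (2 * M ^ 2) := by
        calc ∫⁻ v in cube 1, ‖fU V F (Fin.cons u v)‖ₑ ^ 2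
            ≤ ∫⁻ _v in cube 1, (ENNReal.ofReal M) ^ 2 := by
              refine lintegral_mono fun v => ?_
              exact pow_le_pow_left' (hnorm _) 2
          _ = _ := by
              rw [setLIntegral_const, hcube, ← ENNReal.ofReal_pow hM0,
                ← ENNReal.ofReal_mul (by positivity)]
              congr 1; ring
      refine (ENNReal.rpow_le_rpow h2 (by norm_num)).trans ?_
      rw [ENNReal.ofReal_rpow_of_nonneg (by positivity) (by norm_num)]
      apply ENNReal.ofReal_le_ofReal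
      have h3 : (2 * M ^ 2) ^ ((3 : ℝ) / 2) ≤ (4 * M ^ 2) ^ ((3 : ℝ) / 2) :=
        Real.rpow_le_rpow (by positivity) (by nlinarith [sq_nonneg M]) (by norm_num)
      have h4 : (4 * M ^ 2) ^ ((3 : ℝ) / 2) = 8 * M ^ 3 := by
        rw [show 4 * M ^ 2 = (2 * M) ^ (2 : ℝ) by rw [Real.rpow_two]; ring,
          ← Real.rpow_mul (by positivity), show (2 : ℝ) * (3 / 2) = ((3 : ℕ) : ℝ) by norm_num,
          Real.rpow_natCast]
        ring
      have h5 : (2 * M ^ 2) ^ ((3 : ℝ) / 2) = 2 ^ ((3 : ℝ) / 2) * M ^ 3 := by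
        rw [Real.mul_rpow (by norm_num) (by positivity)]
        congr 1
        rw [← Real.rpow_natCast M 2, ← Real.rpow_mul hM0,
          show ((2 : ℕ) : ℝ) * (3 / 2) = ((3 : ℕ) : ℝ) by norm_num, Real.rpow_natCast]
      rw [h5]
      refine mul_le_mul_of_nonneg_right ?_ (by positivity)
      calc (2 : ℝ) ^ ((3 : ℝ) / 2) ≤ 2 ^ (2 : ℝ) :=
            Real.rpow_le_rpow_of_exponent_le (by norm_num) (by norm_num)
        _ = 4 := by norm_num
    calc ∫⁻ u in Icc (-1 : ℝ) 1, (∫⁻ v in cube 1, ‖fU V F (Fin.cons u v)‖ₑ ^ 2) ^ ((3 : ℝ) / 2)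
        ≤ ∫⁻ _u in Icc (-1 : ℝ) 1, ENNReal.ofReal (4 * M ^ 3) := lintegral_mono fun u => h1 u
      _ = ENNReal.ofReal (4 * M ^ 3 * 2) := by
          rw [setLIntegral_const, hvolI, ← ENNReal.ofReal_mul (by positivity)]
      _ ≤ ENNReal.ofReal ((4 * (N + 1) * M) ^ (3 : ℝ)) := by
          apply ENNReal.ofReal_le_ofReal
          rw [show (3 : ℝ) = ((3 : ℕ) : ℝ) by norm_num, Real.rpow_natCast, mul_pow]
          have : (8 : ℝ) ≤ (4 * (N + 1)) ^ 3 := by
            have h6 : (4 : ℝ) ≤ 4 * (N + 1) := by linarith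
            calc (8 : ℝ) ≤ 4 ^ 3 := by norm_num
              _ ≤ _ := pow_le_pow_left₀ (by norm_num) h6 3
          nlinarith [mul_le_mul_of_nonneg_right this (show 0 ≤ M ^ 3 by positivity)]
      _ = _ := by
          rw [hKr, ENNReal.ofReal_rpow_of_nonneg (by positivity) (by norm_num)]
  · -- the differences
    intro g hg
    set t : ℝ := ‖g‖ with ht
    have ht0 : 0 ≤ t := norm_nonneg _
    have hg0 : |g 0| ≤ t := norm_le_pi_norm g 0
    have h1 : ∀ u : ℝ, (∫⁻ v in {v | v ∈ cube 1 ∧ v + g ∈ cube 1},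
        ‖fU V F (Fin.cons u (v + g)) - fU V F (Fin.cons u v)‖ₑ ^ 2) ^ ((3 : ℝ) / 2) ≤
        ENNReal.ofReal ((M ^ 2 * (2 * N * t)) ^ ((3 : ℝ) / 2)) := by
      intro u
      obtain ⟨I, hI, hS⟩ := hsec u
      have h2 : ∫⁻ v in {v | v ∈ cube 1 ∧ v + g ∈ cube 1},
          ‖fU V F (Fin.cons u (v + g)) - fU V F (Fin.cons u v)‖ₑ ^ 2 ≤
          ENNReal.ofReal (M ^ 2 * (2 * N * t)) := by
        set D : Set ℝ := {v | ¬ (v ∈ {v : ℝ | ![u, v] ∈ V} ↔ v + g 0 ∈ {v : ℝ | ![u, v] ∈ V})}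
          with hD
        calc ∫⁻ v in {v | v ∈ cube 1 ∧ v + g ∈ cube 1},
            ‖fU V F (Fin.cons u (v + g)) - fU V F (Fin.cons u v)‖ₑ ^ 2
            ≤ ∫⁻ v : Fin 1 → ℝ, ‖fU V F (Fin.cons u (v + g)) - fU V F (Fin.cons u v)‖ₑ ^ 2 :=
              setLIntegral_le_lintegral _ _
          _ ≤ ∫⁻ v : Fin 1 → ℝ, ({v : Fin 1 → ℝ | v 0 ∈ D}).indicator
              (fun _ => (ENNReal.ofReal M) ^ 2) v := by
              refine lintegral_mono fun v => ?_
              rw [cons1, cons1]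
              simp only [Pi.add_apply]
              by_cases hv : v 0 ∈ D
              · rw [indicator_of_mem (show v ∈ {v : Fin 1 → ℝ | v 0 ∈ D} from hv)]
                refine pow_le_pow_left' ?_ 2
                rw [← ofReal_norm]
                apply ENNReal.ofReal_le_ofReal
                unfold fU
                by_cases h3 : ![u, v 0] ∈ V
                · have h4 : ![u, v 0 + g 0] ∉ V := fun h4 => hv ⟨fun _ => h4, fun _ => h3⟩
                  rw [indicator_of_mem h3, indicator_of_notMem h4, zero_sub, norm_neg]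
                  exact hM _
                · rw [indicator_of_notMem h3, sub_zero]
                  by_cases h4 : ![u, v 0 + g 0] ∈ V
                  · rw [indicator_of_mem h4]; exact hM _
                  · rw [indicator_of_notMem h4, norm_zero]; exact hM0
              · have h3 : ![u, v 0] ∈ V ↔ ![u, v 0 + g 0] ∈ V := by
                  by_contra h4; exact hv h4
                have h4 : fU V F ![u, v 0 + g 0] = fU V F ![u, v 0] := by
                  unfold fU
                  by_cases h5 : ![u, v 0] ∈ V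
                  · rw [indicator_of_mem h5, indicator_of_mem (h3.1 h5)]
                    simp
                  · rw [indicator_of_notMem h5, indicator_of_notMem fun h6 => h5 (h3.2 h6)]
                rw [h4]
                simp
          _ ≤ (ENNReal.ofReal M) ^ 2 * volume {v : Fin 1 → ℝ | v 0 ∈ D} :=
              lintegral_indicator_const_le _ _
          _ ≤ (ENNReal.ofReal M) ^ 2 * ENNReal.ofReal (2 * N * |g 0|) := by
              rw [vol_one]
              gcongr
              exact sec_xor N _ I hI hS (g 0)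
          _ ≤ _ := by
              rw [← ENNReal.ofReal_pow hM0, ← ENNReal.ofReal_mul (by positivity)]
              apply ENNReal.ofReal_le_ofReal
              gcongr
      refine (ENNReal.rpow_le_rpow h2 (by norm_num)).trans (le_of_eq ?_)
      rw [ENNReal.ofReal_rpow_of_nonneg (by positivity) (by norm_num)]
    calc ∫⁻ u in Icc (-1 : ℝ) 1, (∫⁻ v in {v | v ∈ cube 1 ∧ v + g ∈ cube 1},
          ‖fU V F (Fin.cons u (v + g)) - fU V F (Fin.cons u v)‖ₑ ^ 2) ^ ((3 : ℝ) / 2)
        ≤ ∫⁻ _u in Icc (-1 : ℝ) 1, ENNReal.ofReal ((M ^ 2 * (2 * N * t)) ^ ((3 : ℝ) / 2)) :=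
          lintegral_mono fun u => h1 u
      _ = ENNReal.ofReal ((M ^ 2 * (2 * N * t)) ^ ((3 : ℝ) / 2) * 2) := by
          rw [setLIntegral_const, hvolI, ← ENNReal.ofReal_mul (by positivity)]
      _ ≤ ENNReal.ofReal ((4 * (N + 1) * M * t ^ ((1 : ℝ) / 6)) ^ (3 : ℝ)) := by
          apply ENNReal.ofReal_le_ofReal
          have e1 : (M ^ 2 * (2 * N * t)) ^ ((3 : ℝ) / 2) =
              M ^ 3 * ((2 * N) ^ ((3 : ℝ) / 2) * t ^ ((3 : ℝ) / 2)) := by
            rw [Real.mul_rpow (by positivity) (by positivity),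
              Real.mul_rpow (by positivity) (by positivity)]
            congr 1
            rw [← Real.rpow_natCast M 2, ← Real.rpow_mul hM0,
              show ((2 : ℕ) : ℝ) * (3 / 2) = ((3 : ℕ) : ℝ) by norm_num, Real.rpow_natCast]
          have e2 : (4 * (N + 1) * M * t ^ ((1 : ℝ) / 6)) ^ (3 : ℝ) =
              64 * (N + 1) ^ 3 * M ^ 3 * t ^ ((1 : ℝ) / 2) := by
            rw [Real.mul_rpow (by positivity) (by positivity), ← Real.rpow_mul ht0,
              show (1 : ℝ) / 6 * 3 = 1 / 2 by norm_num]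
            congr 1
            rw [show (3 : ℝ) = ((3 : ℕ) : ℝ) by norm_num, Real.rpow_natCast]
            ring
          rw [e1, e2]
          have e3 : t ^ ((3 : ℝ) / 2) ≤ t ^ ((1 : ℝ) / 2) := by
            rcases ht0.eq_or_lt with h0 | h0
            · rw [← h0, Real.zero_rpow (by norm_num), Real.zero_rpow (by norm_num)]
            · exact Real.rpow_le_rpow_of_exponent_ge h0 hg (by norm_num)
          have e4 : (2 * (N : ℝ)) ^ ((3 : ℝ) / 2) ≤ 4 * (N + 1) ^ 3 := by
            calc (2 * (N : ℝ)) ^ ((3 : ℝ) / 2) ≤ (2 * (N + 1 : ℝ)) ^ ((3 : ℝ) / 2) :=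
                  Real.rpow_le_rpow (by positivity) (by linarith) (by norm_num)
              _ ≤ (2 * (N + 1 : ℝ)) ^ (2 : ℝ) :=
                  Real.rpow_le_rpow_of_exponent_le (by linarith) (by norm_num)
              _ = 4 * (N + 1) ^ 2 := by rw [Real.rpow_two]; ring
              _ ≤ _ := by
                  have : (1 : ℝ) ≤ N + 1 := by linarith
                  have h6 : ((N : ℝ) + 1) ^ 2 ≤ (N + 1) ^ 3 :=
                    pow_le_pow_right₀ this (by norm_num)
                  linarith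
          have e5 : 0 ≤ t ^ ((1 : ℝ) / 2) := by positivity
          have e6 : 0 ≤ M ^ 3 := by positivity
          calc M ^ 3 * ((2 * (N : ℝ)) ^ ((3 : ℝ) / 2) * t ^ ((3 : ℝ) / 2)) * 2
              ≤ M ^ 3 * ((4 * (N + 1) ^ 3) * t ^ ((1 : ℝ) / 2)) * 2 := by gcongr
            _ = 8 * ((N + 1) ^ 3 * M ^ 3 * t ^ ((1 : ℝ) / 2)) := by ring
            _ ≤ 64 * ((N + 1) ^ 3 * M ^ 3 * t ^ ((1 : ℝ) / 2)) := by
                have : 0 ≤ ((N : ℝ) + 1) ^ 3 * M ^ 3 * t ^ ((1 : ℝ) / 2) := by positivity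
                linarith
            _ = _ := by ring
      _ = _ := by
          rw [hKr, ← ENNReal.ofReal_mul (by positivity),
            ENNReal.ofReal_rpow_of_nonneg (by positivity) (by norm_num)]
          congr 3
          norm_num

end Pool.Agent.X331.SP.Para
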