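import Mathlib
import Pool.Agent.X331.SP.Para1
set_option autoImplicit false
set_option linter.unusedSectionVars false

/-! The measure on the paraboloid. -/

namespace Pool.Agent.X331.SP.Para

open MeasureTheory Set Metric Complex
open scoped ENNReal NNReal RealInnerProductSpace
open Pool.Agent.Results.MP_b7167f_an.OneRoughVariable (cube ext)
open Pool.Agent.X93.ST.Slab (kap kap_meas kap_sub)

/-- the parametrization of the paraboloid -/
noncomputable def Phi (x : E 2) : E 3 := !₂[x 0, x 1, x 0 ^ 2 + x 1 ^ 2]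

/-- admissible domains: sections are unions of `N` intervals -/
structure Dom (N : ℕ) (U : Set (E 2)) : Prop where
  meas : MeasurableSet U
  int : (interior U).Nonempty
  bd : U ⊆ closedBall 0 1
  sec : ∀ u : ℝ, ∃ I : Fin N → Set ℝ, (∀ j, (I j).OrdConnected) ∧
    {v : ℝ | !₂[u, v] ∈ U} = ⋃ j, I j

theorem Phi_cont : Continuous Phi := by
  unfold Phi
  refine (PiLp.continuous_toLp 2 _).comp (continuous_pi fun i => ?_)
  fin_cases i <;> simp <;> fun_prop

/-- the truncated paraboloid -/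
def Par : Set (E 3) := Phi '' closedBall 0 1

instance : CompactSpace Par :=
  isCompact_iff_compactSpace.1 ((isCompact_closedBall 0 1).image Phi_cont)

theorem coord_le (x : E 2) (hx : x ∈ closedBall (0 : E 2) 1) : x 0 ^ 2 + x 1 ^ 2 ≤ 1 := by
  rw [mem_closedBall_zero_iff] at hx
  have h := EuclideanSpace.norm_sq_eq x
  rw [Fin.sum_univ_two, Real.norm_eq_abs, Real.norm_eq_abs, sq_abs, sq_abs] at h
  rw [← h]
  exact pow_le_one₀ (norm_nonneg _) hx

theorem Par_norm (x : Par) : ‖(x : E 3)‖ ≤ 3 := by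
  obtain ⟨-, y, hy, rfl⟩ := x
  have h1 := coord_le y hy
  have h2 : ‖Phi y‖ ^ 2 ≤ 3 ^ 2 := by
    rw [EuclideanSpace.norm_sq_eq, Fin.sum_univ_three]
    simp only [Real.norm_eq_abs, sq_abs]
    have e0 : Phi y 0 = y 0 := rfl
    have e1 : Phi y 1 = y 1 := rfl
    have e2 : Phi y 2 = y 0 ^ 2 + y 1 ^ 2 := rfl
    rw [e0, e1, e2]
    have h3 : 0 ≤ y 0 ^ 2 + y 1 ^ 2 := by positivity
    nlinarith
  exact (sq_le_sq₀ (norm_nonneg _) (by norm_num)).1 h2

/-- the parametrization as a map to the truncated paraboloid -/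
noncomputable def jj (x : E 2) : Par :=
  ⟨Phi ((closedBall (0 : E 2) 1).indicator (fun x => x) x), by
    refine mem_image_of_mem _ ?_
    by_cases h : x ∈ closedBall (0 : E 2) 1
    · rw [indicator_of_mem h]; exact h
    · rw [indicator_of_notMem h]; simp⟩

theorem jj_meas : Measurable jj := by
  refine Measurable.subtype_mk ?_
  exact Phi_cont.measurable.comp (measurable_id.indicator isClosed_closedBall.measurableSet)

theorem jj_eq (x : E 2) (hx : x ∈ closedBall (0 : E 2) 1) : (jj x : E 3) = Phi x := by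
  unfold jj
  simp only
  rw [indicator_of_mem hx]

/-- the first two coordinates -/
noncomputable def pr (y : E 3) : E 2 := !₂[y 0, y 1]

theorem pr_cont : Continuous pr := by
  unfold pr
  refine (PiLp.continuous_toLp 2 _).comp (continuous_pi fun i => ?_)
  fin_cases i <;> simp <;> fun_prop

theorem pr_Phi (x : E 2) : pr (Phi x) = x := by
  unfold pr Phi
  ext i
  fin_cases i <;> rfl

theorem pr_jj (x : E 2) (hx : x ∈ closedBall (0 : E 2) 1) : pr (jj x : E 3) = x := by
  rw [jj_eq x hx, pr_Phi]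

/-- the measure -/
noncomputable def pm (U : Set (E 2)) : Measure Par := Measure.map jj (volume.restrict U)

variable {N : ℕ} {U : Set (E 2)}

theorem vol_fin (hU : U ⊆ closedBall 0 1) : volume U < ⊤ :=
  lt_of_le_of_lt (measure_mono hU) (isCompact_closedBall _ _).measure_lt_top

theorem pm_fin (hU : U ⊆ closedBall 0 1) : IsFiniteMeasure (pm U) := by
  have : IsFiniteMeasure (volume.restrict U) := ⟨by
    rw [Measure.restrict_apply_univ]; exact vol_fin hU⟩
  unfold pm
  exact Measure.isFiniteMeasure_map _ _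

/-- the extension operator -/
noncomputable def ex2 (U : Set (E 2)) (f : E 2 → ℂ) (ξ : E 3) : ℂ :=
  ∫ x in U, Complex.exp (-(Complex.I * (⟪Phi x, ξ⟫ : ℝ))) * f x

theorem ft_pm (hm : MeasurableSet U) (hU : U ⊆ closedBall 0 1) (g : Par → ℂ) (hg : Measurable g)
    (ξ : E 3) : ft (pm U) g ξ = ex2 U (fun x => g (jj x)) ξ := by
  unfold ft pm ex2
  rw [integral_map jj_meas.aemeasurable]
  · refine setIntegral_congr_fun hm fun x hx => ?_
    simp only
    rw [jj_eq x (hU hx)]
    congr 2
    ring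
  · have h1 : Continuous fun x : Par => Complex.exp (-(⟪(x : E 3), ξ⟫ : ℝ) * Complex.I) := by
      fun_prop
    exact (h1.measurable.mul hg).aestronglyMeasurable

/-- transfer of functions on the plane -/
theorem ft_pm' (hm : MeasurableSet U) (hU : U ⊆ closedBall 0 1) (f : E 2 → ℂ) (hf : Measurable f)
    (ξ : E 3) : ft (pm U) (fun y => f (pr y)) ξ = ex2 U f ξ := by
  rw [ft_pm hm hU (fun y => f (pr y)) (hf.comp (pr_cont.measurable.comp measurable_subtype_coe))]
  unfold ex2
  refine setIntegral_congr_fun hm fun x hx => ?_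
  simp only
  rw [pr_jj x (hU hx)]

/-- the direction -/
noncomputable def e1 : E 3 := EuclideanSpace.single 0 1

theorem inner_e1 (y : E 3) : (⟪e1, y⟫ : ℝ) = y 0 := by
  unfold e1
  rw [EuclideanSpace.inner_single_left]
  simp

theorem slab_vol (hU : U ⊆ closedBall 0 1) (K : ℕ) (i : Fin (K + 1)) :
    volume {x | x ∈ U ∧ kap K (x 0) = i} ≤ ENNReal.ofReal (4 / (K + 1)) := by
  set A : Set ℝ := Icc (-1 + 2 * (i : ℝ) / (K + 1)) (-1 + 2 * ((i : ℝ) + 1) / (K + 1)) ∪ {-1, 1}
    with hA
  have h1 : {x | x ∈ U ∧ kap K (x 0) = i} ⊆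
      (WithLp.ofLp : E 2 → (Fin 2 → ℝ)) ⁻¹' (Set.pi univ ![A, Icc (-1 : ℝ) 1]) := by
    rintro x ⟨hx, hk⟩
    have h2 := coord_le x (hU hx)
    have h3 : -1 ≤ x 0 ∧ x 0 ≤ 1 := by
      constructor <;> nlinarith [sq_nonneg (x 1)]
    have h4 : -1 ≤ x 1 ∧ x 1 ≤ 1 := by
      constructor <;> nlinarith [sq_nonneg (x 0)]
    rw [mem_preimage, mem_univ_pi]
    intro l
    fin_cases l
    · change x 0 ∈ A
      rcases h3.1.eq_or_lt with h5 | h5
      · right; left; exact h5.symm
      · rcases h3.2.eq_or_lt with h6 | h6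
        · right; right; exact h6
        · left; exact kap_sub K i ⟨hk, h5, h6⟩
    · change x 1 ∈ Icc (-1 : ℝ) 1
      exact h4
  refine (measure_mono h1).trans ?_
  have hmA : MeasurableSet A := measurableSet_Icc.union (by measurability)
  have hms : MeasurableSet (Set.pi univ ![A, Icc (-1 : ℝ) 1]) := by
    refine MeasurableSet.univ_pi fun l => ?_
    fin_cases l
    · exact hmA
    · exact measurableSet_Icc
  rw [(PiLp.volume_preserving_ofLp (Fin 2)).measure_preimage hms.nullMeasurableSet, volume_pi_pi,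
    Fin.prod_univ_two]
  change volume A * volume (Icc (-1 : ℝ) 1) ≤ _
  have h5 : volume A ≤ ENNReal.ofReal (2 / (K + 1)) := by
    refine (measure_union_le _ _).trans ?_
    rw [(Set.toFinite ({-1, 1} : Set ℝ)).measure_zero, add_zero, Real.volume_Icc]
    apply ENNReal.ofReal_le_ofReal
    refine le_of_eq ?_
    ring
  rw [Real.volume_Icc]
  refine (mul_le_mul_left h5 _).trans (le_of_eq ?_)
  rw [← ENNReal.ofReal_mul (by positivity)]
  congr 1
  ring

theorem pos (h : Dom N U) : 0 < (pm U).real univ := by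
  have h1 : 0 < volume U := lt_of_lt_of_le (isOpen_interior.measure_pos _ h.int)
    (measure_mono interior_subset)
  have h2 : (pm U) univ = volume U := by
    unfold pm
    rw [Measure.map_apply jj_meas MeasurableSet.univ, preimage_univ, Measure.restrict_apply_univ]
  unfold Measure.real
  rw [h2]
  exact ENNReal.toReal_pos h1.ne' (vol_fin h.bd).ne

theorem slabs' (h : Dom N U) (δ : ℝ≥0∞) (hδ : δ ≠ 0) : ∃ K : ℕ, ∀ i : Fin (K + 1),
    pm U {x | kap K (⟪e1, (x : E 3)⟫ : ℝ) = i} ≤ δ := by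
  obtain ⟨K, hK⟩ : ∃ K : ℕ, ENNReal.ofReal (4 / ((K : ℝ) + 1)) ≤ δ := by
    rcases eq_or_ne δ ⊤ with rfl | hd'
    · exact ⟨0, le_top⟩
    · have hd1 : 0 < δ.toReal := ENNReal.toReal_pos hδ hd'
      obtain ⟨K, hK⟩ := exists_nat_gt (4 / δ.toReal)
      refine ⟨K, ?_⟩
      refine ENNReal.ofReal_le_of_le_toReal ?_
      rw [div_lt_iff₀ hd1] at hK
      rw [div_le_iff₀ (by positivity)]
      nlinarith
  refine ⟨K, fun i => le_trans ?_ hK⟩
  have hms : MeasurableSet {x : Par | kap K (⟪e1, (x : E 3)⟫ : ℝ) = i} := by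
    have h2 : Measurable fun x : Par => (⟪e1, (x : E 3)⟫ : ℝ) := by fun_prop
    exact ((kap_meas K).comp h2) (measurableSet_singleton i)
  unfold pm
  rw [Measure.map_apply jj_meas hms, Measure.restrict_apply (jj_meas hms)]
  refine (measure_mono ?_).trans (slab_vol h.bd K i)
  rintro x ⟨hx1, hx2⟩
  refine ⟨hx2, ?_⟩
  rw [mem_preimage, mem_ofPred_eq, inner_e1, jj_eq x (h.bd hx2)] at hx1
  exact hx1

end Pool.Agent.X331.SP.Para
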