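import Mathlib
import Pool.Agent.X331.SP.Para2
set_option autoImplicit false
set_option linter.unusedSectionVars false

/-! The measure on the paraboloid is admissible. -/

namespace Pool.Agent.X331.SP.Para

open MeasureTheory Set Metric Complex
open scoped ENNReal NNReal RealInnerProductSpace
open Pool.Agent.Results.MP_b7167f_an.OneRoughVariable (cube)
open Pool.Agent.Results.MP_b7167f_an
open Pool.Agent.X93.ST.Slab (kap kap_meas kap_sub)

variable {N : ℕ} {U : Set (E 2)}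

theorem inner_Phi (x : E 2) (ξ : E 3) :
    (⟪Phi x, ξ⟫ : ℝ) = x 0 * ξ 0 + x 1 * ξ 1 + (x 0 ^ 2 + x 1 ^ 2) * ξ 2 := by
  rw [PiLp.inner_apply, Fin.sum_univ_three]
  have a0 : Phi x 0 = x 0 := rfl
  have a1 : Phi x 1 = x 1 := rfl
  have a2 : Phi x 2 = x 0 ^ 2 + x 1 ^ 2 := rfl
  rw [a0, a1, a2]
  simp only [RCLike.inner_apply, conj_trivial]
  ring

/-- the linear map of the frequencies -/
noncomputable def PP : E 3 ≃ᵐ (Fin 2 → ℝ) × ℝ :=
  (MeasurableEquiv.toLp 2 (Fin 3 → ℝ)).symm.trans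
    ((MeasurableEquiv.piFinSuccAbove (fun _ : Fin 3 => ℝ) (Fin.last 2)).trans
      MeasurableEquiv.prodComm)

theorem PP_mp : MeasurePreserving PP volume volume := by
  have h1 := EuclideanSpace.volume_preserving_symm_measurableEquiv_toLp (Fin 3)
  have h2 := volume_preserving_piFinSuccAbove (fun _ : Fin 3 => ℝ) (Fin.last 2)
  have h3 : MeasurePreserving (MeasurableEquiv.prodComm : ℝ × (Fin 2 → ℝ) ≃ᵐ _) volume volume :=
    Measure.measurePreserving_swap
  exact h3.comp (h2.comp h1)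

theorem PP_fst (ξ : E 3) (j : Fin 2) : (PP ξ).1 j = ξ j.castSucc := by
  unfold PP
  fin_cases j <;> rfl

theorem PP_snd (ξ : E 3) : (PP ξ).2 = ξ 2 := rfl

theorem scale (g : (Fin 2 → ℝ) × ℝ → ℝ≥0∞) (c : ℝ) (hc : c ≠ 0) :
    ∫⁻ y, g (c • y) = ENNReal.ofReal |(c ^ 3)⁻¹| * ∫⁻ y, g y := by
  have : (volume : Measure ((Fin 2 → ℝ) × ℝ)).IsAddHaarMeasure :=
    inferInstanceAs ((volume.prod volume : Measure ((Fin 2 → ℝ) × ℝ)).IsAddHaarMeasure)
  have h1 := lintegral_map_equiv (μ := (volume : Measure ((Fin 2 → ℝ) × ℝ))) g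
    (Homeomorph.smulOfNeZero c hc).toMeasurableEquiv
  have h2 : (⇑(Homeomorph.smulOfNeZero (α := (Fin 2 → ℝ) × ℝ) c hc).toMeasurableEquiv) =
      fun y => c • y := rfl
  rw [h2, Measure.map_addHaar_smul _ hc, lintegral_smul_measure] at h1
  rw [← h1, smul_eq_mul]
  congr 4
  simp

theorem ft_ext (h : Dom N U) (F : ℝ → ℂ) (hF : Measurable F) (ξ : E 3) :
    ft (pm U) (fun x => F ⟪e1, (x : E 3)⟫) ξ =
      OneRoughVariable.ext (fU {ζ | (WithLp.toLp 2 ζ : E 2) ∈ U} F) ((-(1 / (2 * Real.pi))) • PP ξ) := by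
  have h1 : (fun x : Par => F ⟪e1, (x : E 3)⟫) = fun x : Par => (fun z : E 2 => F (z 0)) (pr x) := by
    funext x
    rw [inner_e1]
    rfl
  have hz : Measurable fun z : E 2 => F (z 0) := hF.comp (by fun_prop)
  rw [h1, ft_pm' h.meas h.bd (fun z : E 2 => F (z 0)) hz]
  unfold ex2 OneRoughVariable.ext
  rw [← integral_indicator h.meas]
  have h2 := (PiLp.volume_preserving_toLp (Fin 2)).integral_comp
    (MeasurableEquiv.toLp 2 (Fin 2 → ℝ)).measurableEmbedding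
    (U.indicator fun x : E 2 => Complex.exp (-(Complex.I * (⟪Phi x, ξ⟫ : ℝ))) * F (x 0))
  rw [← h2]
  rw [setIntegral_eq_integral_of_forall_compl_eq_zero]
  · congr 1
    funext ζ
    unfold fU
    by_cases hζ : (WithLp.toLp 2 ζ : E 2) ∈ U
    · rw [indicator_of_mem hζ, indicator_of_mem (show ζ ∈ {ζ | (WithLp.toLp 2 ζ : E 2) ∈ U} from hζ)]
      rw [mul_comm]
      congr 2
      rw [inner_Phi]
      simp only [Prod.smul_fst, Prod.smul_snd, Pi.smul_apply, smul_eq_mul, PP_fst, PP_snd,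
        Fin.sum_univ_two]
      have hpi : (Real.pi : ℂ) ≠ 0 := by exact_mod_cast Real.pi_ne_zero
      have b0 : (Fin.castSucc (0 : Fin 2)) = (0 : Fin 3) := rfl
      have b1 : (Fin.castSucc (1 : Fin 2)) = (1 : Fin 3) := rfl
      rw [b0, b1]
      push_cast
      field_simp
      ring
    · rw [indicator_of_notMem hζ,
        indicator_of_notMem (show ζ ∉ {ζ | (WithLp.toLp 2 ζ : E 2) ∈ U} from hζ)]
      simp
  · intro ζ hζ
    unfold fU
    rw [indicator_of_notMem, zero_mul]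
    intro hζ'
    apply hζ
    have h3 := coord_le _ (h.bd hζ')
    have c0 : (WithLp.toLp 2 ζ : E 2) 0 = ζ 0 := rfl
    have c1 : (WithLp.toLp 2 ζ : E 2) 1 = ζ 1 := rfl
    rw [c0, c1] at h3
    constructor
    · intro i
      fin_cases i
      · change -1 ≤ ζ 0; nlinarith [sq_nonneg (ζ 1)]
      · change -1 ≤ ζ 1; nlinarith [sq_nonneg (ζ 0)]
    · intro i
      fin_cases i
      · change ζ 0 ≤ 1; nlinarith [sq_nonneg (ζ 1)]
      · change ζ 1 ≤ 1; nlinarith [sq_nonneg (ζ 0)]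

theorem rid' (h : Dom N U) (q : ℝ) (hq : 3 < q) : ∃ C : ℝ, 0 < C ∧ ∀ F : ℝ → ℂ, Measurable F →
    ∀ K : ℝ, (∀ t, ‖F t‖ ≤ K) →
      MemLp (ft (pm U) (fun x => F ⟪e1, (x : E 3)⟫)) (ENNReal.ofReal q) ∧
      eLpNorm (ft (pm U) (fun x => F ⟪e1, (x : E 3)⟫)) (ENNReal.ofReal q) ≤
        ENNReal.ofReal (C * K) := by
  have := pm_fin h.bd
  have hV : MeasurableSet {ζ : Fin 2 → ℝ | (WithLp.toLp 2 ζ : E 2) ∈ U} :=
    (PiLp.continuous_toLp 2 _).measurable h.meas
  obtain ⟨C, hC⟩ := plane N {ζ | (WithLp.toLp 2 ζ : E 2) ∈ U} hV h.sec q hq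
  set c : ℝ := -(1 / (2 * Real.pi)) with hc
  have hc0 : c ≠ 0 := by
    rw [hc]
    have := Real.pi_pos
    exact neg_ne_zero.2 (by positivity)
  set A : ℝ := |(c ^ 3)⁻¹| with hA
  have hA0 : 0 < A := abs_pos.2 (inv_ne_zero (pow_ne_zero _ hc0))
  refine ⟨A ^ (1 / q) * (C + 1), by positivity, ?_⟩
  intro F hF K hK
  have hK0 : 0 ≤ K := (norm_nonneg _).trans (hK 0)
  have hint : Integrable (fun x : Par => F ⟪e1, (x : E 3)⟫) (pm U) :=
    int_of_bdd (M := K) (hF.comp (by fun_prop)) fun x => hK _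
  have h1 : ∫⁻ ξ, ‖ft (pm U) (fun x => F ⟪e1, (x : E 3)⟫) ξ‖ₑ ^ q ≤
      ENNReal.ofReal (A * (C * K) ^ q) := by
    simp_rw [ft_ext h F hF]
    rw [PP_mp.lintegral_comp_emb PP.measurableEmbedding
      (fun y => ‖OneRoughVariable.ext (fU {ζ | (WithLp.toLp 2 ζ : E 2) ∈ U} F) (c • y)‖ₑ ^ q)]
    rw [scale (fun y => ‖OneRoughVariable.ext (fU {ζ | (WithLp.toLp 2 ζ : E 2) ∈ U} F) y‖ₑ ^ q) c hc0,
      ENNReal.ofReal_mul hA0.le]
    gcongr
    exact hC F hF K hK
  have h2 : eLpNorm (ft (pm U) (fun x => F ⟪e1, (x : E 3)⟫)) (ENNReal.ofReal q) volume ≤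
      ENNReal.ofReal (A ^ (1 / q) * (C + 1) * K) := by
    rw [eLpNorm_eq_lintegral_rpow_enorm_toReal (by simp; linarith) (by simp),
      ENNReal.toReal_ofReal (by linarith)]
    refine (ENNReal.rpow_le_rpow h1 (by positivity)).trans ?_
    rw [ENNReal.ofReal_rpow_of_nonneg (by positivity) (by positivity)]
    apply ENNReal.ofReal_le_ofReal
    rw [Real.mul_rpow hA0.le (by positivity), ← Real.rpow_mul (by positivity),
      mul_one_div_cancel (by linarith), Real.rpow_one, mul_assoc]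
    gcongr
    linarith
  exact ⟨⟨(ft_cont hint).aestronglyMeasurable, lt_of_le_of_lt h2 ENNReal.ofReal_lt_top⟩, h2⟩

theorem adm (h : Dom N U) : Adm (pm U) 3 e1 where
  two := by norm_num
  four := by norm_num
  pos := pos h
  norm := Par_norm
  slabs := slabs' h
  rid := rid' h

end Pool.Agent.X331.SP.Para
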