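import Mathlib
import Pool.Agent.X331.SP.Para3
set_option autoImplicit false
set_option linter.unusedSectionVars false

/-! Transfer to the plane. -/

namespace Pool.Agent.X331.SP

open MeasureTheory Set Metric Complex Filter Topology
open scoped ENNReal NNReal RealInnerProductSpace

variable {n : ℕ} {𝕊 : Set (E n)} {ν : Measure 𝕊} [IsFiniteMeasure ν]

/-- **From sets to bounded densities, with a uniform bound.** -/
theorem of_sets2 {qc : ℝ} {e : E n} (H : Adm ν qc e) (p : ℝ) (hp : 1 ≤ p)
    (h : ∀ A : Set 𝕊, MeasurableSet A → MemLp (ft ν (ind A)) (ENNReal.ofReal p)) :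
    ∃ C : ℝ, 0 ≤ C ∧ ∀ g : 𝕊 → ℂ, Measurable g → ∀ M : ℝ, (∀ x, ‖g x‖ ≤ M) →
      MemLp (ft ν g) (ENNReal.ofReal p) ∧
        eLpNorm (ft ν g) (ENNReal.ofReal p) volume ≤ ENNReal.ofReal (C * M) := by
  have hp1 : 1 ≤ ENNReal.ofReal p := by
    rw [← ENNReal.ofReal_one]; exact ENNReal.ofReal_le_ofReal hp
  obtain ⟨C, hC⟩ := all_sets H p hp h
  have hx : Nonempty 𝕊 := by
    by_contra hc
    rw [not_nonempty_iff] at hc
    have h1 := H.pos
    rw [univ_eq_empty_iff.2 hc] at h1
    simp at h1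
  -- real functions bounded by one
  have key : ∀ f : 𝕊 → ℝ, Measurable f → (∀ x, |f x| ≤ 1) →
      eLpNorm (ft ν fun x => (f x : ℂ)) (ENNReal.ofReal p) volume ≤ 6 * C := by
    intro f hf hfM
    set u : 𝕊 → ℝ := fun x => f x / 4 + 1 / 2 with hu
    have hum : Measurable u := (hf.div_const _).add_const _
    have hu0 : ∀ x, 0 ≤ u x := fun x => by
      have := (abs_le.1 (hfM x)).1
      simp only [hu]; linarith
    have hu1 : ∀ x, u x < 1 := fun x => by
      have := (abs_le.1 (hfM x)).2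
      simp only [hu]; linarith
    have hui : Integrable (fun x => (u x : ℂ)) ν :=
      int_of_bdd (M := 1) (Complex.measurable_ofReal.comp hum) fun x => by
        rw [Complex.norm_real, Real.norm_eq_abs, abs_of_nonneg (hu0 x)]
        exact (hu1 x).le
    have e1 : (ft ν fun x => (f x : ℂ)) = (4 : ℂ) • ft ν (fun x => (u x : ℂ)) -
        (2 : ℂ) • ft ν (ind univ) := by
      funext ξ
      rw [Pi.sub_apply, Pi.smul_apply, Pi.smul_apply, smul_eq_mul, smul_eq_mul,
        ← ft_smul, ← ft_smul, ← ft_sub (hui.const_mul _)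
        ((ind_int MeasurableSet.univ).const_mul _)]
      congr 1
      funext x
      simp only [hu, ind, indicator_univ]
      push_cast
      ring
    rw [e1]
    refine (eLpNorm_sub_le ((ft_cont hui).aestronglyMeasurable.const_smul _)
      ((ft_cont (ind_int MeasurableSet.univ)).aestronglyMeasurable.const_smul _) hp1).trans ?_
    rw [eLpNorm_const_smul, eLpNorm_const_smul]
    have e4 : ‖(4 : ℂ)‖ₑ = 4 := by
      rw [← ofReal_norm]; norm_num
    have e2 : ‖(2 : ℂ)‖ₑ = 2 := by
      rw [← ofReal_norm]; norm_num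
    rw [e4, e2]
    calc (4 : ℝ≥0∞) * eLpNorm (ft ν fun x => (u x : ℂ)) (ENNReal.ofReal p) volume +
          2 * eLpNorm (ft ν (ind univ)) (ENNReal.ofReal p) volume ≤ 4 * C + 2 * C :=
          add_le_add (mul_le_mul_right (unit_bound p hp C hC u hum hu0 hu1) _)
            (mul_le_mul_right (hC _ MeasurableSet.univ) _)
      _ = 6 * C := by rw [← add_mul]; norm_num
  refine ⟨12 * C, by positivity, fun g hg M hM => ?_⟩
  have hM0 : 0 ≤ M := by
    obtain ⟨x⟩ := hx
    exact (norm_nonneg _).trans (hM x)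
  have hgi : Integrable g ν := int_of_bdd hg hM
  suffices hb : eLpNorm (ft ν g) (ENNReal.ofReal p) volume ≤ ENNReal.ofReal (12 * C * M) from
    ⟨⟨(ft_cont hgi).aestronglyMeasurable, lt_of_le_of_lt hb ENNReal.ofReal_lt_top⟩, hb⟩
  rcases hM0.eq_or_lt with h0 | h0
  · have hg0 : g = fun _ => 0 := funext fun x => by
      have := hM x
      rw [← h0] at this
      exact norm_le_zero_iff.1 this
    have : ft ν g = 0 := by
      funext ξ
      rw [hg0]
      unfold ft
      simp
    rw [this]; simp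
  have k1 := key (fun x => (g x).re / M) ((Complex.measurable_re.comp hg).div_const _) fun x => by
    rw [abs_div, abs_of_pos h0, div_le_one h0]
    exact (Complex.abs_re_le_norm _).trans (hM x)
  have k2 := key (fun x => (g x).im / M) ((Complex.measurable_im.comp hg).div_const _) fun x => by
    rw [abs_div, abs_of_pos h0, div_le_one h0]
    exact (Complex.abs_im_le_norm _).trans (hM x)
  have hi1 : Integrable (fun x => (((g x).re / M : ℝ) : ℂ)) ν := (hgi.re.div_const M).ofReal
  have hi2 : Integrable (fun x => (((g x).im / M : ℝ) : ℂ)) ν := (hgi.im.div_const M).ofReal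
  have e1 : ft ν g = (M : ℂ) • ft ν (fun x => (((g x).re / M : ℝ) : ℂ)) +
      ((M : ℂ) * I) • ft ν (fun x => (((g x).im / M : ℝ) : ℂ)) := by
    funext ξ
    rw [Pi.add_apply, Pi.smul_apply, Pi.smul_apply, smul_eq_mul, smul_eq_mul,
      ← ft_smul, ← ft_smul, ← ft_add (hi1.const_mul _) (hi2.const_mul _)]
    congr 1
    funext x
    have hMc : (M : ℂ) ≠ 0 := by exact_mod_cast h0.ne'
    push_cast
    conv_lhs => rw [← Complex.re_add_im (g x)]
    field_simp
  rw [e1]
  refine (eLpNorm_add_le ((ft_cont hi1).aestronglyMeasurable.const_smul _)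
    ((ft_cont hi2).aestronglyMeasurable.const_smul _) hp1).trans ?_
  rw [eLpNorm_const_smul, eLpNorm_const_smul]
  have e2 : ‖(M : ℂ)‖ₑ = ENNReal.ofReal M := by
    rw [← ofReal_norm, Complex.norm_real, Real.norm_eq_abs, abs_of_pos h0]
  have e3 : ‖(M : ℂ) * I‖ₑ = ENNReal.ofReal M := by
    rw [← ofReal_norm, norm_mul, Complex.norm_I, mul_one, Complex.norm_real, Real.norm_eq_abs,
      abs_of_pos h0]
  rw [e2, e3]
  calc _ ≤ ENNReal.ofReal M * (6 * C) + ENNReal.ofReal M * (6 * C) :=
        add_le_add (mul_le_mul_right k1 _) (mul_le_mul_right k2 _)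
    _ = ENNReal.ofReal (12 * C * M) := by
        rw [ENNReal.ofReal_mul (by positivity), ENNReal.ofReal_mul (by norm_num),
          ENNReal.ofReal_coe_nnreal, ← mul_add, ← add_mul]
        norm_num
        ring

end Pool.Agent.X331.SP

namespace Pool.Agent.X331.SP.Para

open MeasureTheory Set Metric Complex
open scoped ENNReal NNReal RealInnerProductSpace

variable {N : ℕ} {U : Set (E 2)}

theorem ex2_congr (hU : MeasurableSet U) (f g : E 2 → ℂ) (h : ∀ x ∈ U, f x = g x) :
    ex2 U f = ex2 U g := by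
  funext ξ
  unfold ex2
  refine setIntegral_congr_fun hU fun x hx => ?_
  change _ * f x = _ * g x
  rw [h x hx]

theorem shiftsU (h : Dom N U) (g : E 2 → ℝ) (hg : Measurable g) (Ψ : ℝ → ℝ) (hΨ : Monotone Ψ)
    (p₀ : ℝ) (hp₀ : 3 < p₀) (η : ℝ) (hη : 0 < η) :
    ∃ k : E 2 → ℤ, Measurable k ∧
      ∫⁻ x in U, ENNReal.ofReal (Ψ |g x + k x|) < ⊤ ∧
      (∀ q : ℝ≥0∞, q ≠ ⊤ → MemLp (fun x => g x + k x) q (volume.restrict U)) ∧
      (∀ p : ℝ, 3 < p → MemLp (ex2 U fun x => ((g x + k x : ℝ) : ℂ)) (ENNReal.ofReal p)) ∧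
      ∀ r : ℝ≥0∞, ENNReal.ofReal p₀ ≤ r →
        eLpNorm (ex2 U fun x => ((g x + k x : ℝ) : ℂ)) r volume ≤ ENNReal.ofReal η := by
  have := pm_fin h.bd
  have hgp : Measurable fun y : Par => g (pr y) :=
    hg.comp (pr_cont.measurable.comp measurable_subtype_coe)
  obtain ⟨k, hk, h1, h2, h3, h4⟩ := shifts2 (adm h) (fun y : Par => g (pr y)) hgp Ψ hΨ p₀ hp₀ η hη
  have hkR : Measurable fun y => ((k y : ℤ) : ℝ) := measurable_from_top.comp hk
  have hG : Measurable fun y : Par => g (pr y) + k y := hgp.add hkR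
  have hpt : ∀ x ∈ U, g (pr (jj x : E 3)) + k (jj x) = g x + k (jj x) := by
    intro x hx
    rw [pr_jj x (h.bd hx)]
  have hft : ft (pm U) (fun y => ((g (pr y) + k y : ℝ) : ℂ)) =
      ex2 U fun x => ((g x + k (jj x) : ℝ) : ℂ) := by
    funext ξ
    rw [ft_pm h.meas h.bd (fun y => ((g (pr y) + k y : ℝ) : ℂ))
      (Complex.measurable_ofReal.comp hG) ξ]
    exact congrFun (ex2_congr h.meas _ _ fun x hx => by rw [hpt x hx]) ξ
  refine ⟨fun x => k (jj x), hk.comp jj_meas, ?_, ?_, ?_, ?_⟩
  · unfold pm at h1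
    rw [lintegral_map (f := fun y : Par => ENNReal.ofReal (Ψ |g (pr y) + k y|))
      (ENNReal.measurable_ofReal.comp (hΨ.measurable.comp hG.abs)) jj_meas] at h1
    refine lt_of_le_of_lt (le_of_eq ?_) h1
    refine setLIntegral_congr_fun h.meas fun x hx => ?_
    simp only
    rw [hpt x hx]
  · intro q hq
    have h5 := h2 q hq
    unfold pm at h5
    rw [memLp_map_measure_iff hG.aestronglyMeasurable jj_meas.aemeasurable] at h5
    refine (memLp_congr_ae ?_).1 h5
    filter_upwards [ae_restrict_mem h.meas] with x hx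
    exact hpt x hx
  · intro p hp
    have h5 := h3 p hp
    rw [hft] at h5
    exact h5
  · intro r hr
    have h5 := h4 r hr
    rw [hft] at h5
    exact h5

/-- Two-valued functions determine the estimate at one exponent. -/
theorem ext_of (h : Dom N U) (p : ℝ) (hp : 3 < p) (a b : ℂ) (hab : a ≠ b)
    (H : ∀ A : Set (E 2), MeasurableSet A → ∃ G : E 2 → ℂ, (∀ x ∈ A, G x = a) ∧
      (∀ x, x ∉ A → G x = b) ∧ MemLp (ex2 U G) (ENNReal.ofReal p)) :
    ∃ C : ℝ, 0 ≤ C ∧ ∀ g : E 2 → ℂ, Measurable g → ∀ M : ℝ, (∀ x, ‖g x‖ ≤ M) →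
      MemLp (ex2 U g) (ENNReal.ofReal p) ∧
        eLpNorm (ex2 U g) (ENNReal.ofReal p) volume ≤ ENNReal.ofReal (C * M) := by
  have := pm_fin h.bd
  have hprm : Measurable fun y : Par => pr (y : E 3) :=
    pr_cont.measurable.comp measurable_subtype_coe
  have hsets : ∀ A' : Set Par, MeasurableSet A' →
      MemLp (ft (pm U) (ind A')) (ENNReal.ofReal p) := by
    intro A' hA'
    set A : Set (E 2) := jj ⁻¹' A' with hA
    have hAm : MeasurableSet A := jj_meas hA'
    obtain ⟨G, h1, h2, h3⟩ := H A hAm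
    obtain ⟨K, -, h5, h6⟩ := H ∅ MeasurableSet.empty
    have hab' : a - b ≠ 0 := sub_ne_zero.2 hab
    have hG : G = fun x => (a - b) * A.indicator (fun _ => (1 : ℂ)) x + b := by
      funext x
      by_cases hx : x ∈ A
      · rw [h1 x hx, Set.indicator_of_mem hx]; ring
      · rw [h2 x hx, Set.indicator_of_notMem hx]; ring
    have hK : K = fun _ => b := funext fun x => h5 x (by simp)
    have hGm : Measurable G := by
      rw [hG]
      exact ((measurable_const.indicator hAm).const_mul _).add_const _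
    have e1 : ft (pm U) (fun y => ind A' y) = fun ξ => (a - b)⁻¹ * (ex2 U G ξ - ex2 U K ξ) := by
      funext ξ
      have e2 : ex2 U G ξ = ft (pm U) (fun y => (a - b) * ind A' y + b) ξ := by
        rw [ft_pm h.meas h.bd (fun y => (a - b) * ind A' y + b)
          (((ind_meas hA').const_mul _).add_const _)]
        refine congrFun (ex2_congr h.meas _ _ fun x _ => ?_) ξ
        rw [hG]
        rfl
      have e3 : ex2 U K ξ = ft (pm U) (fun _ => b) ξ := by
        rw [ft_pm h.meas h.bd (fun _ => b) measurable_const, hK]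
      rw [e2, e3, ft_add ((ind_int hA').const_mul _) (integrable_const b), ft_smul]
      field_simp
      ring
    change MemLp (ft (pm U) (fun y => ind A' y)) (ENNReal.ofReal p)
    rw [e1]
    exact (h3.sub h6).const_mul _
  obtain ⟨C, hC0, hC⟩ := of_sets2 (adm h) p (by linarith) hsets
  refine ⟨C, hC0, fun g hg M hM => ?_⟩
  have h1 := hC (fun y => g (pr y)) (hg.comp hprm) M (fun y => hM _)
  have h2 : ft (pm U) (fun y => g (pr y)) = ex2 U g := funext fun ξ => ft_pm' h.meas h.bd g hg ξ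
  rw [h2] at h1
  exact h1

end Pool.Agent.X331.SP.Para
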